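import Pool.Agent.Lib.MP_65d7a7_an.Gleason

/-!
# The Baire category argument
-/

open Metric MeasureTheory Filter Topology
open scoped NNReal ENNReal Real

namespace Pool.Agent.Lib.MP_65d7a7_an

section Abstract

variable {Y : Type*} [TopologicalSpace Y] [CompactSpace Y] [FirstCountableTopology Y]
  {E : Type*} [NormedAddCommGroup E] [NormedSpace ℂ E] (Φ : Y → StrongDual ℂ E)

lemma limit_of_tendsto (hΦ : ∀ e, Continuous fun y => Φ y e) {u : ℕ → Y} {ψ : StrongDual ℂ E}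
    (h : Tendsto (fun n => Φ (u n)) atTop (𝓝 ψ)) :
    ∃ y : Y, Φ y = ψ ∧ ∃ s : ℕ → ℕ, StrictMono s ∧ Tendsto (u ∘ s) atTop (𝓝 y) := by
  obtain ⟨y, s, hs, hy⟩ := CompactSpace.tendsto_subseq u
  refine ⟨y, ?_, s, hs, hy⟩
  ext e
  have h1 : Tendsto (fun n => Φ (u n) e) atTop (𝓝 (ψ e)) :=
    ((ContinuousLinearMap.apply ℂ ℂ e).continuous.tendsto ψ).comp h
  have h2 : Tendsto (fun n => Φ (u (s n)) e) atTop (𝓝 (ψ e)) := h1.comp hs.tendsto_atTop
  have h3 : Tendsto (fun n => Φ (u (s n)) e) atTop (𝓝 (Φ y e)) :=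
    ((hΦ e).tendsto y).comp hy
  exact tendsto_nhds_unique h3 h2

lemma isClosed_image (hΦ : ∀ e, Continuous fun y => Φ y e) {A : Set Y} (hA : IsClosed A) :
    IsClosed (Φ '' A) := by
  refine IsSeqClosed.isClosed fun v ψ hv hψ => ?_
  choose u huA hu using hv
  have h1 : Tendsto (fun n => Φ (u n)) atTop (𝓝 ψ) := hψ.congr fun n => (hu n).symm
  obtain ⟨y, hy, s, _, hs⟩ := limit_of_tendsto Φ hΦ h1
  exact ⟨y, hA.mem_of_tendsto hs (Eventually.of_forall fun n => huA (s n)), hy⟩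

/-- The abstract Baire argument: `N` is a nonempty set of points, each point outside `N` is
isolated in the norm of the dual, and `N` is covered by closed sets. -/
theorem abstract_baire (hΦ : ∀ e, Continuous fun y => Φ y e) (hinj : Function.Injective Φ)
    {N : Set Y} (hN : ∀ x, x ∉ N → ∀ y, y ≠ x → 1 / 2 ≤ ‖Φ x - Φ y‖) (hne : N.Nonempty)
    (F : ℕ → Set Y) (hF : ∀ n, IsClosed (F n)) (hcov : ∀ x ∈ N, ∃ n, x ∈ F n) :
    ∃ x₀ ∈ N, ∃ n : ℕ, ∃ ε : ℝ, 0 < ε ∧ ∀ z : Y, ‖Φ z - Φ x₀‖ ≤ ε → z ∈ F n := by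
  set S : Set (StrongDual ℂ E) := Φ '' N with hS
  have hSc : IsClosed S := by
    refine IsSeqClosed.isClosed fun v ψ hv hψ => ?_
    choose u huN hu using hv
    have h1 : Tendsto (fun n => Φ (u n)) atTop (𝓝 ψ) := hψ.congr fun n => (hu n).symm
    obtain ⟨x, hx, _⟩ := limit_of_tendsto Φ hΦ h1
    refine ⟨x, ?_, hx⟩
    by_contra hpk
    rw [← hx] at h1
    have h2 := (Metric.tendsto_atTop.mp h1) (1 / 2) (by norm_num)
    obtain ⟨n, hn⟩ := h2
    have h3 := hn n le_rfl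
    rw [dist_comm, dist_eq_norm] at h3
    have hne : u n ≠ x := fun e => hpk (e ▸ huN n)
    exact absurd h3 (not_lt.mpr (hN x hpk _ hne))
  have hcomp : CompleteSpace S := hSc.completeSpace_coe
  have hnon : Nonempty S := by
    obtain ⟨x, hx⟩ := hne
    exact ⟨⟨Φ x, x, hx, rfl⟩⟩
  obtain ⟨M, ψ₀, hψ₀⟩ := nonempty_interior_of_iUnion_of_closed
    (f := fun M : ℕ => {ψ : S | ψ.1 ∈ Φ '' (F M)})
    (fun M => (isClosed_image Φ hΦ (hF M)).preimage continuous_subtype_val)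
    (by
      rw [Set.eq_univ_iff_forall]
      rintro ⟨ψ, x, hx, rfl⟩
      obtain ⟨n, hn⟩ := hcov x hx
      exact Set.mem_iUnion.mpr ⟨n, ⟨x, hn, rfl⟩⟩)
  rw [mem_interior_iff_mem_nhds, Metric.mem_nhds_iff] at hψ₀
  obtain ⟨ε, hε, hball⟩ := hψ₀
  obtain ⟨ψ, x₀, hx₀, rfl⟩ := ψ₀
  refine ⟨x₀, hx₀, M, min (ε / 2) (1 / 4), by positivity, fun z h1 => ?_⟩
  have hzN : z ∈ N := by
    by_contra hpk
    by_cases hne' : x₀ = z
    · exact hpk (hne' ▸ hx₀)
    · have h2 := hN z hpk x₀ hne'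
      have h3 : ‖Φ z - Φ x₀‖ ≤ 1 / 4 := h1.trans (min_le_right _ _)
      linarith
  have hmem : (⟨Φ z, z, hzN, rfl⟩ : S) ∈ ball (⟨Φ x₀, x₀, hx₀, rfl⟩ : S) ε := by
    rw [mem_ball, Subtype.dist_eq, dist_eq_norm]
    have h3 : ‖Φ z - Φ x₀‖ ≤ ε / 2 := h1.trans (min_le_left _ _)
    show ‖Φ z - Φ x₀‖ < ε
    linarith
  obtain ⟨z', hz', e⟩ := hball hmem
  have : z' = z := hinj e
  rw [← this]
  exact hz'

end Abstract

variable {X : Set ℂ} [CompactSpace X]

/-- The rational functions with poles off `X` as a subspace of `C(X)`. -/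
noncomputable abbrev W (X : Set ℂ) : Submodule ℂ C(X, ℂ) := Subalgebra.toSubmodule (ratAlg X)

/-- Point evaluation as an element of the dual. -/
noncomputable def φ (x : X) : StrongDual ℂ (W X) :=
  (ContinuousMap.evalCLM ℂ x).comp (W X).subtypeL

omit [CompactSpace X] in
lemma φ_apply (x : X) (g : W X) : φ x g = g.1 x := rfl

lemma norm_sub_le_iff {x y : X} {ε : ℝ} (hε : 0 ≤ ε) :
    ‖φ x - φ y‖ ≤ ε ↔ ∀ g ∈ ratAlg X, ‖g x - g y‖ ≤ ε * ‖g‖ := by
  constructor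
  · intro h g hg
    have h1 := (φ x - φ y).le_of_opNorm_le h ⟨g, hg⟩
    exact h1
  · intro h
    refine ContinuousLinearMap.opNorm_le_bound _ hε fun g => ?_
    exact h g.1 g.2

omit [CompactSpace X] in
lemma φ_injective : Function.Injective (φ : X → StrongDual ℂ (W X)) := by
  intro x y h
  have h1 : φ x ⟨coord X, coord_mem X⟩ = φ y ⟨coord X, coord_mem X⟩ := by rw [h]
  exact Subtype.ext h1

/-- A peak point has distance at least `1/2` from all other points. -/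
lemma peak_sep {x y : X} (hx : IsPeakPoint x) (hxy : y ≠ x) : 1 / 2 ≤ ‖φ x - φ y‖ := by
  by_contra hcon
  push Not at hcon
  obtain ⟨f, hf, hfx, hfy⟩ := hx
  obtain ⟨n, hn⟩ := exists_pow_lt_of_lt_one (show (0 : ℝ) < 1 / 8 by norm_num) (hfy y hxy)
  have hfn : f ^ n ∈ R X := pow_mem hf n
  have hcl : f ^ n ∈ closure (ratAlg X : Set C(X, ℂ)) := hfn
  obtain ⟨g, hg, hfg⟩ := Metric.mem_closure_iff.mp hcl (1 / 8) (by norm_num)
  rw [dist_eq_norm] at hfg
  have hf1 : ‖f ^ n‖ ≤ 1 := by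
    rw [ContinuousMap.norm_le _ zero_le_one]
    intro z
    rw [ContinuousMap.pow_apply, norm_pow]
    refine pow_le_one₀ (norm_nonneg _) ?_
    by_cases hz : z = x
    · rw [hz, hfx, norm_one]
    · exact (hfy z hz).le
  have hgn : ‖g‖ ≤ 9 / 8 := by
    calc ‖g‖ = ‖f ^ n - (f ^ n - g)‖ := by rw [sub_sub_cancel]
      _ ≤ ‖f ^ n‖ + ‖f ^ n - g‖ := norm_sub_le _ _
      _ ≤ 1 + 1 / 8 := add_le_add hf1 hfg.le
      _ = 9 / 8 := by norm_num
  have e1 : ‖(f ^ n - g) x‖ ≤ 1 / 8 := ((f ^ n - g).norm_coe_le_norm x).trans hfg.le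
  have e2 : ‖(f ^ n - g) y‖ ≤ 1 / 8 := ((f ^ n - g).norm_coe_le_norm y).trans hfg.le
  have e3 : ‖(f ^ n) y‖ ≤ 1 / 8 := by
    rw [ContinuousMap.pow_apply, norm_pow]; exact hn.le
  have e4 : (f ^ n) x = 1 := by rw [ContinuousMap.pow_apply, hfx, one_pow]
  have h1 : ‖g x - g y‖ ≤ 1 / 2 * ‖g‖ := (norm_sub_le_iff (by norm_num)).mp hcon.le g hg
  have h2 : (1 : ℝ) ≤ ‖g x - g y‖ + (1 / 8 + (1 / 8 + 1 / 8)) := by
    have e5 : (1 : ℂ) = (g x - g y) + ((f ^ n - g) x + ((f ^ n) y - (f ^ n - g) y)) := by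
      simp only [ContinuousMap.coe_sub, Pi.sub_apply]
      rw [e4]; ring
    calc (1 : ℝ) = ‖(1 : ℂ)‖ := norm_one.symm
      _ = ‖(g x - g y) + ((f ^ n - g) x + ((f ^ n) y - (f ^ n - g) y))‖ := by rw [← e5]
      _ ≤ ‖g x - g y‖ + (‖(f ^ n - g) x‖ + (‖(f ^ n) y‖ + ‖(f ^ n - g) y‖)) := by
          refine (norm_add_le _ _).trans (add_le_add le_rfl ?_)
          exact (norm_add_le _ _).trans (add_le_add le_rfl (norm_sub_le _ _))
      _ ≤ _ := by gcongr
  nlinarith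

omit [CompactSpace X] in
lemma sh_eq (w : ℂ) : sh X w = coord X - w • 1 := by
  ext ζ; simp

lemma isClosed_BD (M : ℝ) : IsClosed {x : X | BD x M} := by
  have : {x : X | BD x M} = ⋂ g ∈ ratAlg X, {x : X | ‖g x‖ ≤ M * ‖sh X x * g‖} := by
    ext x; simp [BD]
  rw [this]
  refine isClosed_biInter fun g _ => ?_
  refine isClosed_le (by fun_prop) ?_
  simp_rw [sh_eq]
  fun_prop

lemma BD.mono {x : X} {M M' : ℝ} (h : BD x M) (hM : M ≤ M') : BD x M' := fun g hg =>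
  (h g hg).trans (by gcongr)

/-- If `X` has empty interior and there is a nonpeak point, then some nonpeak point carries no
bounded point derivation. -/
theorem exists_nonpeak_not_BD (hint : interior X = ∅) (hne : ∃ x : X, ¬ IsPeakPoint x) :
    ∃ x : X, ¬ IsPeakPoint x ∧ ∀ M : ℝ, ¬ BD x M := by
  by_contra hcon
  push Not at hcon
  obtain ⟨x₀, _, M, ε, hε, h⟩ := abstract_baire (Y := X) (E := W X) φ
    (fun e => map_continuous e.1) φ_injective (N := {x : X | ¬ IsPeakPoint x})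
    (fun x hx y hy => peak_sep (by simpa using hx) hy) hne
    (fun M : ℕ => {x : X | BD x (M : ℝ)}) (fun M => isClosed_BD _)
    (fun x hx => by
      obtain ⟨M, hM⟩ := hcon x hx
      obtain ⟨n, hn⟩ := exists_nat_ge M
      exact ⟨n, hM.mono hn⟩)
  exact not_uniform (x₀ := x₀) (M := M) (ε := ε) hint (by positivity) hε fun z hz =>
    h z ((norm_sub_le_iff hε.le).mpr hz)

/-- A nonzero bounded point derivation gives the quantitative bound. -/
theorem BD_of_derivation {x : X} {D : R X →ₗ[ℂ] ℂ} (hD : IsPointDerivation x D)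
    (hb : IsBoundedFunctional D) (hne : D ≠ 0) : ∃ M : ℝ, BD x M := by
  obtain ⟨C, hC⟩ := hb
  have hle : ratAlg X ≤ R X := Subalgebra.le_topologicalClosure _
  have h1 : D 1 = 0 := by
    have := hD 1 1
    rw [mul_one] at this
    have e : (1 : R X).1 x = 1 := rfl
    rw [e] at this
    linear_combination -this
  set s : R X := ⟨sh X x, hle (sh_mem X x)⟩ with hs
  have hmul : ∀ G (hG : G ∈ ratAlg X), D (s * ⟨G, hle hG⟩) = G x * D s := by
    intro G hG
    rw [hD]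
    have e : s.1 x = 0 := by simp [hs]
    rw [e]; ring
  have hlam : D s ≠ 0 := by
    intro h0
    apply hne
    have hrat : ∀ g (hg : g ∈ ratAlg X), D ⟨g, hle hg⟩ = 0 := by
      intro g hg
      obtain ⟨G, hG, hGe⟩ := exists_divided hg x
      have e : (⟨g, hle hg⟩ : R X) = (g x) • (1 : R X) + s * ⟨G, hle hG⟩ := by
        apply Subtype.ext
        ext ζ
        have := hGe ζ
        show g ζ = g x • 1 + ((ζ : ℂ) - x) * G ζ
        rw [smul_eq_mul]
        linear_combination this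
      rw [e, map_add, map_smul, h1, hmul G hG, h0]
      simp
    ext f
    show D f = 0
    by_contra hf
    have hpos : 0 < ‖D f‖ := norm_pos_iff.mpr hf
    have hcl : f.1 ∈ closure (ratAlg X : Set C(X, ℂ)) := f.2
    obtain ⟨g, hg, hfg⟩ := Metric.mem_closure_iff.mp hcl (‖D f‖ / (|C| + 1)) (by positivity)
    rw [dist_eq_norm] at hfg
    have h2 := hC (f - ⟨g, hle hg⟩)
    rw [map_sub, hrat g hg, sub_zero] at h2
    have h3 : ‖(f - ⟨g, hle hg⟩ : R X).1‖ = ‖f.1 - g‖ := rfl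
    rw [h3] at h2
    have h4 : C * ‖f.1 - g‖ ≤ |C| * ‖f.1 - g‖ := by
      gcongr
      exact le_abs_self C
    have h5 : |C| * ‖f.1 - g‖ ≤ |C| * (‖D f‖ / (|C| + 1)) := by gcongr
    have h6 : |C| * (‖D f‖ / (|C| + 1)) < ‖D f‖ := by
      rw [mul_div_assoc', div_lt_iff₀ (by positivity)]
      nlinarith
    linarith
  refine ⟨C / ‖D s‖, fun g hg => ?_⟩
  have h2 := hC (s * ⟨g, hle hg⟩)
  rw [hmul g hg, norm_mul] at h2
  have hpos : 0 < ‖D s‖ := norm_pos_iff.mpr hlam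
  have h3 : ‖(s * ⟨g, hle hg⟩ : R X).1‖ = ‖sh X x * g‖ := rfl
  rw [h3] at h2
  rw [div_mul_eq_mul_div, le_div_iff₀ hpos]
  exact h2

end Pool.Agent.Lib.MP_65d7a7_an
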