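import Pool.Agent.Lib.MP_65d7a7_an.Rational

/-!
# Cauchy's theorem for rational functions on a Swiss cheese
-/

open Metric MeasureTheory Filter Topology
open scoped NNReal ENNReal Real

namespace Pool.Agent.Lib.MP_65d7a7_an

namespace SwissCheese

variable (S : SwissCheese)

lemma sphere_subset (n : ℕ) : sphere (S.a n) (S.r n) ⊆ S.toSet := by
  intro ζ hζ
  have h1 : ζ ∈ closedBall (S.a n) (S.r n) := sphere_subset_closedBall hζ
  refine ⟨ball_subset_closedBall (S.subset n h1), ?_⟩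
  intro h2
  obtain ⟨m, hm⟩ := Set.mem_iUnion.mp h2
  by_cases hmn : m = n
  · subst hmn
    rw [mem_ball, mem_sphere.mp hζ] at hm
    exact lt_irrefl _ hm
  · exact Set.disjoint_left.mp (S.disjoint m n hmn) (ball_subset_closedBall hm) h1

lemma outer_subset : sphere S.c S.ρ ⊆ S.toSet := by
  intro ζ hζ
  refine ⟨sphere_subset_closedBall hζ, ?_⟩
  intro h2
  obtain ⟨m, hm⟩ := Set.mem_iUnion.mp h2
  have h3 := S.subset m (ball_subset_closedBall hm)
  rw [mem_ball, mem_sphere.mp hζ] at h3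
  exact lt_irrefl _ h3

/-- Cauchy's theorem holds for `f` on the Swiss cheese. -/
def CauchyOK (f : ℂ → ℂ) : Prop :=
  HasSum (fun n => ∮ ζ in C(S.a n, S.r n), f ζ) (∮ ζ in C(S.c, S.ρ), f ζ)

variable {S}

lemma CauchyOK.congr {f g : ℂ → ℂ} (hf : S.CauchyOK f) (h : ∀ ζ ∈ S.toSet, f ζ = g ζ) :
    S.CauchyOK g := by
  have h1 : (fun n => ∮ ζ in C(S.a n, S.r n), f ζ) = fun n => ∮ ζ in C(S.a n, S.r n), g ζ := by
    funext n
    exact circleIntegral.integral_congr (S.r_pos n).le fun ζ hζ => h ζ (S.sphere_subset n hζ)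
  have h2 : (∮ ζ in C(S.c, S.ρ), f ζ) = ∮ ζ in C(S.c, S.ρ), g ζ :=
    circleIntegral.integral_congr S.ρ_pos.le fun ζ hζ => h ζ (S.outer_subset hζ)
  unfold CauchyOK at hf ⊢
  rwa [h1, h2] at hf

lemma CauchyOK.add {f g : ℂ → ℂ} (hf : S.CauchyOK f) (hg : S.CauchyOK g)
    (cf : ContinuousOn f S.toSet) (cg : ContinuousOn g S.toSet) :
    S.CauchyOK fun ζ => f ζ + g ζ := by
  unfold CauchyOK at hf hg ⊢
  have h1 : (fun n => ∮ ζ in C(S.a n, S.r n), (f ζ + g ζ)) =
      fun n => (∮ ζ in C(S.a n, S.r n), f ζ) + ∮ ζ in C(S.a n, S.r n), g ζ := by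
    funext n
    exact circleIntegral.integral_add
      ((cf.mono (S.sphere_subset n)).circleIntegrable (S.r_pos n).le)
      ((cg.mono (S.sphere_subset n)).circleIntegrable (S.r_pos n).le)
  have h2 : (∮ ζ in C(S.c, S.ρ), (f ζ + g ζ)) =
      (∮ ζ in C(S.c, S.ρ), f ζ) + ∮ ζ in C(S.c, S.ρ), g ζ :=
    circleIntegral.integral_add ((cf.mono S.outer_subset).circleIntegrable S.ρ_pos.le)
      ((cg.mono S.outer_subset).circleIntegrable S.ρ_pos.le)
  rw [h1, h2]
  exact hf.add hg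

lemma CauchyOK.const_mul {f : ℂ → ℂ} (hf : S.CauchyOK f) (A : ℂ) :
    S.CauchyOK fun ζ => A * f ζ := by
  unfold CauchyOK at hf ⊢
  simp_rw [circleIntegral.integral_const_mul]
  exact hf.mul_left A

lemma integral_eq_zero {f : ℂ → ℂ} {w : ℂ} {t : ℝ} (ht : 0 ≤ t)
    (hf : ∀ ζ ∈ closedBall w t, DifferentiableAt ℂ f ζ) : ∮ ζ in C(w, t), f ζ = 0 :=
  Complex.circleIntegral_eq_zero_of_differentiable_on_off_countable ht Set.countable_empty
    (fun ζ hζ => (hf ζ hζ).continuousAt.continuousWithinAt)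
    fun ζ hζ => hf ζ (ball_subset_closedBall hζ.1)

lemma cauchyOK_of_differentiable {f : ℂ → ℂ} (hf : ∀ ζ ∈ closedBall S.c S.ρ, DifferentiableAt ℂ f ζ) :
    S.CauchyOK f := by
  unfold CauchyOK
  rw [integral_eq_zero S.ρ_pos.le hf]
  have h1 : (fun n => ∮ ζ in C(S.a n, S.r n), f ζ) = fun _ => 0 := by
    funext n
    exact integral_eq_zero (S.r_pos n).le fun ζ hζ =>
      hf ζ (ball_subset_closedBall (S.subset n hζ))
  rw [h1]
  exact hasSum_zero

lemma differentiableAt_pole {p ζ : ℂ} (k : ℕ) (h : ζ ≠ p) :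
    DifferentiableAt ℂ (fun ζ => ((ζ - p) ^ k)⁻¹) ζ := by
  refine DifferentiableAt.inv (by fun_prop) ?_
  exact pow_ne_zero _ (sub_ne_zero.mpr h)

lemma cauchyOK_pole {p : ℂ} (hp : p ∉ S.toSet) (k : ℕ) :
    S.CauchyOK fun ζ => ((ζ - p) ^ (k + 1))⁻¹ := by
  by_cases hpc : p ∈ closedBall S.c S.ρ
  · obtain ⟨m, hm⟩ : ∃ m, p ∈ ball (S.a m) (S.r m) := by
      by_contra hcon
      push Not at hcon
      exact hp ⟨hpc, fun h => by
        obtain ⟨m, hm⟩ := Set.mem_iUnion.mp h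
        exact hcon m hm⟩
    have hpb : p ∈ ball S.c S.ρ := S.subset m (ball_subset_closedBall hm)
    have hzero : ∀ n, n ≠ m → ∮ ζ in C(S.a n, S.r n), ((ζ - p) ^ (k + 1))⁻¹ = 0 := by
      intro n hn
      refine integral_eq_zero (S.r_pos n).le fun ζ hζ => differentiableAt_pole _ ?_
      rintro rfl
      exact Set.disjoint_left.mp (S.disjoint n m hn) hζ (ball_subset_closedBall hm)
    have hval : ∮ ζ in C(S.a m, S.r m), ((ζ - p) ^ (k + 1))⁻¹ =
        ∮ ζ in C(S.c, S.ρ), ((ζ - p) ^ (k + 1))⁻¹ := by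
      rcases Nat.eq_zero_or_pos k with rfl | hk
      · simp only [zero_add, pow_one]
        rw [circleIntegral.integral_sub_inv_of_mem_ball hm,
          circleIntegral.integral_sub_inv_of_mem_ball hpb]
      · have e : (fun ζ : ℂ => ((ζ - p) ^ (k + 1))⁻¹) = fun ζ => (ζ - p) ^ (-(k + 1 : ℕ) : ℤ) := by
          funext ζ
          rw [zpow_neg, zpow_natCast]
        rw [e, circleIntegral.integral_sub_zpow_of_ne (by omega),
          circleIntegral.integral_sub_zpow_of_ne (by omega)]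
    unfold CauchyOK
    rw [← hval]
    exact hasSum_single m hzero
  · refine cauchyOK_of_differentiable fun ζ hζ => differentiableAt_pole _ ?_
    rintro rfl
    exact hpc hζ

lemma continuousOn_div {P Q : Polynomial ℂ} (hQ : ∀ z ∈ S.toSet, Q.eval z ≠ 0) :
    ContinuousOn (fun ζ => P.eval ζ / Q.eval ζ) S.toSet :=
  P.continuous.continuousOn.div Q.continuous.continuousOn hQ

lemma continuousOn_pole {p : ℂ} (hp : p ∉ S.toSet) (k : ℕ) :
    ContinuousOn (fun ζ => ((ζ - p) ^ (k + 1))⁻¹) S.toSet := by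
  intro ζ hζ
  have hne : ζ ≠ p := by
    rintro rfl
    exact hp hζ
  exact (differentiableAt_pole _ hne).continuousAt.continuousWithinAt

/-- Cauchy's theorem for rational functions with poles off the Swiss cheese. -/
theorem cauchyOK_rat (d : ℕ) : ∀ P Q : Polynomial ℂ, Q.natDegree ≤ d →
    (∀ z ∈ S.toSet, Q.eval z ≠ 0) → S.CauchyOK fun ζ => P.eval ζ / Q.eval ζ := by
  induction d with
  | zero =>
    intro P Q hd hQ
    obtain ⟨q, rfl⟩ := Polynomial.natDegree_eq_zero.mp (Nat.le_zero.mp hd)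
    refine cauchyOK_of_differentiable fun ζ _ => ?_
    simp only [Polynomial.eval_C]
    exact P.differentiableAt.div_const q
  | succ d ih =>
    intro P Q hd hQ
    by_cases h0 : Q.natDegree = 0
    · exact ih P Q (by omega) hQ
    have hQ0 : Q ≠ 0 := by
      rintro rfl
      exact h0 Polynomial.natDegree_zero
    have hdeg : 0 < Q.degree := Polynomial.natDegree_pos_iff_degree_pos.mp (Nat.pos_of_ne_zero h0)
    obtain ⟨p, hp⟩ := Complex.exists_root hdeg
    have hpX : p ∉ S.toSet := fun h => hQ p h hp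
    obtain ⟨Q₁, hQ1, hnd⟩ := Polynomial.exists_eq_pow_rootMultiplicity_mul_and_not_dvd Q hQ0 p
    have hk : 0 < Q.rootMultiplicity p := (Polynomial.rootMultiplicity_pos hQ0).mpr hp
    obtain ⟨k, hk⟩ := Nat.exists_eq_succ_of_ne_zero hk.ne'
    rw [hk, Nat.succ_eq_add_one] at hQ1
    have hQ1p : Q₁.eval p ≠ 0 := fun h => hnd (Polynomial.dvd_iff_isRoot.mpr h)
    set A : ℂ := P.eval p / Q₁.eval p with hA
    have hroot : (P - Polynomial.C A * Q₁).IsRoot p := by
      rw [Polynomial.IsRoot.def, Polynomial.eval_sub, Polynomial.eval_mul, Polynomial.eval_C, hA,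
        div_mul_cancel₀ _ hQ1p, sub_self]
    obtain ⟨P₁, hP1⟩ := Polynomial.dvd_iff_isRoot.mpr hroot
    set Q₂ : Polynomial ℂ := (Polynomial.X - Polynomial.C p) ^ k * Q₁ with hQ2
    have hQQ2 : Q = (Polynomial.X - Polynomial.C p) * Q₂ := by
      rw [hQ2, ← mul_assoc, ← pow_succ', ← hQ1]
    have hQ2X : ∀ z ∈ S.toSet, Q₂.eval z ≠ 0 := fun z hz h => by
      apply hQ z hz
      rw [hQQ2, Polynomial.eval_mul, h, mul_zero]
    have hQ20 : Q₂ ≠ 0 := by
      rintro h
      apply hQ0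
      rw [hQQ2, h, mul_zero]
    have hdeg2 : Q₂.natDegree ≤ d := by
      have : Q.natDegree = 1 + Q₂.natDegree := by
        rw [hQQ2, Polynomial.natDegree_mul (Polynomial.X_sub_C_ne_zero p) hQ20,
          Polynomial.natDegree_X_sub_C]
      omega
    have h1 := ih P₁ Q₂ hdeg2 hQ2X
    have h2 := (cauchyOK_pole hpX k).const_mul A
    refine (h2.add h1 (continuousOn_const.mul (continuousOn_pole hpX k))
      (continuousOn_div hQ2X)).congr fun ζ hζ => ?_
    have hζp : ζ - p ≠ 0 := sub_ne_zero.mpr fun h => hpX (h ▸ hζ)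
    have e1 : Q.eval ζ = (ζ - p) ^ (k + 1) * Q₁.eval ζ := by
      rw [hQ1]; simp
    have e2 : Q₂.eval ζ = (ζ - p) ^ k * Q₁.eval ζ := by
      rw [hQ2]; simp
    have e3 : P.eval ζ = A * Q₁.eval ζ + (ζ - p) * P₁.eval ζ := by
      have := congrArg (Polynomial.eval ζ) hP1
      simp only [Polynomial.eval_sub, Polynomial.eval_mul, Polynomial.eval_C,
        Polynomial.eval_X] at this
      linear_combination this
    have hQ1ζ : Q₁.eval ζ ≠ 0 := fun h => hQ ζ hζ (by rw [e1, h, mul_zero])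
    rw [e1, e2, e3]
    field_simp
    ring

end SwissCheese

end Pool.Agent.Lib.MP_65d7a7_an
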