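import Mathlib

/-!
# Averaging the Cauchy kernel over discs
-/

open scoped NNReal ENNReal Real
open MeasureTheory Metric

namespace Pool.Agent.Lib.MP_65d7a7_an

lemma lintegral_ball_zero (ρ : ℝ) (hρ : 0 < ρ) :
    ∫⁻ z in ball (0 : ℂ) ρ, ‖z‖ₑ⁻¹ ≤ ENNReal.ofReal (2 * π * ρ) := by
  rw [← lintegral_indicator measurableSet_ball, ← Complex.lintegral_comp_polarCoord_symm]
  calc ∫⁻ p in polarCoord.target, ENNReal.ofReal p.1 •
        (ball (0 : ℂ) ρ).indicator (fun z => ‖z‖ₑ⁻¹) (Complex.polarCoord.symm p)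
      ≤ ∫⁻ p in polarCoord.target,
          (Set.Ioo (0 : ℝ) ρ ×ˢ Set.Ioo (-π) π).indicator (fun _ => (1 : ℝ≥0∞)) p := by
        refine setLIntegral_mono' polarCoord.open_target.measurableSet fun p hp => ?_
        have hp' : p ∈ Set.Ioi (0 : ℝ) ×ˢ Set.Ioo (-π) π := hp
        have h0 : 0 < p.1 := hp'.1
        by_cases hb : Complex.polarCoord.symm p ∈ ball (0 : ℂ) ρ
        · rw [Set.indicator_of_mem hb]
          have hn : ‖Complex.polarCoord.symm p‖ = p.1 := by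
            rw [Complex.norm_polarCoord_symm, abs_of_pos h0]
          have hlt : p.1 < ρ := by
            rw [mem_ball_zero_iff, hn] at hb
            exact hb
          rw [Set.indicator_of_mem (show p ∈ Set.Ioo (0 : ℝ) ρ ×ˢ Set.Ioo (-π) π from
            ⟨⟨h0, hlt⟩, hp'.2⟩)]
          rw [← ofReal_norm, hn, smul_eq_mul, ENNReal.mul_inv_cancel]
          · simpa using h0
          · exact ENNReal.ofReal_ne_top
        · rw [Set.indicator_of_notMem hb, smul_zero]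
          exact zero_le
    _ ≤ ∫⁻ p, (Set.Ioo (0 : ℝ) ρ ×ˢ Set.Ioo (-π) π).indicator (fun _ => (1 : ℝ≥0∞)) p :=
        setLIntegral_le_lintegral _ _
    _ = volume (Set.Ioo (0 : ℝ) ρ ×ˢ Set.Ioo (-π) π) := by
        rw [lintegral_indicator (measurableSet_Ioo.prod measurableSet_Ioo), setLIntegral_one]
    _ = ENNReal.ofReal (2 * π * ρ) := by
        rw [Measure.volume_eq_prod, Measure.prod_prod, Real.volume_Ioo, Real.volume_Ioo,
          ← ENNReal.ofReal_mul (by linarith)]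
        congr 1
        ring

lemma lintegral_ball_self (ζ : ℂ) (ρ : ℝ) (hρ : 0 < ρ) :
    ∫⁻ z in ball ζ ρ, ‖ζ - z‖ₑ⁻¹ ≤ ENNReal.ofReal (2 * π * ρ) := by
  refine le_trans (le_of_eq ?_) (lintegral_ball_zero ρ hρ)
  rw [← lintegral_indicator measurableSet_ball, ← lintegral_indicator measurableSet_ball]
  rw [← lintegral_sub_left_eq_self _ ζ]
  refine lintegral_congr fun z => ?_
  by_cases hz : z ∈ ball (0 : ℂ) ρ
  · have hz' : ζ - z ∈ ball ζ ρ := by
      rw [mem_ball, dist_eq_norm]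
      rw [mem_ball_zero_iff] at hz
      simpa using hz
    rw [Set.indicator_of_mem hz, Set.indicator_of_mem hz', sub_sub_cancel]
  · have hz' : ζ - z ∉ ball ζ ρ := by
      rw [mem_ball, dist_eq_norm]
      rw [mem_ball_zero_iff] at hz
      simpa using hz
    rw [Set.indicator_of_notMem hz, Set.indicator_of_notMem hz']

lemma volume_ball_eq (w : ℂ) {ρ : ℝ} (hρ : 0 < ρ) :
    volume (ball w ρ) = ENNReal.ofReal (π * ρ ^ 2) := by
  rw [Complex.volume_ball, mul_comm, ENNReal.ofReal_mul Real.pi_pos.le, ENNReal.ofReal_pow hρ.le]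
  congr 1
  rw [← NNReal.coe_real_pi, ENNReal.ofReal_coe_nnreal]

lemma lintegral_ball (ζ w : ℂ) (ρ : ℝ) (hρ : 0 < ρ) :
    ∫⁻ z in ball w ρ, ‖ζ - z‖ₑ⁻¹ ≤ ENNReal.ofReal (3 * π * ρ) := by
  have hsub : ball w ρ ⊆ ball ζ ρ ∪ (ball w ρ \ ball ζ ρ) := fun z hz => by
    by_cases h : z ∈ ball ζ ρ
    · exact Or.inl h
    · exact Or.inr ⟨hz, h⟩
  have h2 : ∫⁻ z in ball w ρ \ ball ζ ρ, ‖ζ - z‖ₑ⁻¹ ≤ ENNReal.ofReal (π * ρ) := by
    calc ∫⁻ z in ball w ρ \ ball ζ ρ, ‖ζ - z‖ₑ⁻¹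
        ≤ ∫⁻ _ in ball w ρ \ ball ζ ρ, (ENNReal.ofReal ρ)⁻¹ := by
          refine setLIntegral_mono' (measurableSet_ball.diff measurableSet_ball) fun z hz => ?_
          rw [ENNReal.inv_le_inv, ← ofReal_norm]
          apply ENNReal.ofReal_le_ofReal
          have := hz.2
          rw [mem_ball, not_lt, dist_comm, dist_eq_norm] at this
          exact this
      _ = (ENNReal.ofReal ρ)⁻¹ * volume (ball w ρ \ ball ζ ρ) := by
          rw [setLIntegral_const]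
      _ ≤ (ENNReal.ofReal ρ)⁻¹ * volume (ball w ρ) := by
          gcongr
          exact Set.sdiff_subset
      _ = ENNReal.ofReal (π * ρ) := by
          rw [volume_ball_eq w hρ, ← ENNReal.ofReal_inv_of_pos hρ,
            ← ENNReal.ofReal_mul (by positivity)]
          congr 1
          field_simp
  calc ∫⁻ z in ball w ρ, ‖ζ - z‖ₑ⁻¹
      ≤ ∫⁻ z in ball ζ ρ ∪ (ball w ρ \ ball ζ ρ), ‖ζ - z‖ₑ⁻¹ := lintegral_mono_set hsub
    _ ≤ (∫⁻ z in ball ζ ρ, ‖ζ - z‖ₑ⁻¹) + ∫⁻ z in ball w ρ \ ball ζ ρ, ‖ζ - z‖ₑ⁻¹ :=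
        lintegral_union_le _ _ _
    _ ≤ ENNReal.ofReal (2 * π * ρ) + ENNReal.ofReal (π * ρ) :=
        add_le_add (lintegral_ball_self ζ ρ hρ) h2
    _ = ENNReal.ofReal (3 * π * ρ) := by
        rw [← ENNReal.ofReal_add (by positivity) (by positivity)]
        congr 1
        ring

/-- Averaging the potential of a measure over a disc. -/
lemma lintegral_potential {α : Type*} [MeasurableSpace α] (μ : Measure α) [SFinite μ]
    (c : α → ℂ) (hc : Measurable c) (w : ℂ) {ρ : ℝ} (hρ : 0 < ρ) :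
    ∫⁻ z in ball w ρ, (∫⁻ a, ‖c a - z‖ₑ⁻¹ ∂μ) ≤ ENNReal.ofReal (3 * π * ρ) * μ Set.univ := by
  have hm : Measurable (fun p : ℂ × α => ‖c p.2 - p.1‖ₑ⁻¹) :=
    ((hc.comp measurable_snd).sub measurable_fst).enorm.inv
  rw [lintegral_lintegral_swap hm.aemeasurable]
  calc ∫⁻ a, (∫⁻ z in ball w ρ, ‖c a - z‖ₑ⁻¹) ∂μ
      ≤ ∫⁻ _, ENNReal.ofReal (3 * π * ρ) ∂μ := lintegral_mono fun a => lintegral_ball _ _ _ hρ
    _ = ENNReal.ofReal (3 * π * ρ) * μ Set.univ := by rw [lintegral_const]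

/-- In each disc there is a point at which the potential is small. -/
lemma exists_small_potential {α : Type*} [MeasurableSpace α] (μ : Measure α) [SFinite μ]
    (c : α → ℂ) (hc : Measurable c) (w : ℂ) {ρ : ℝ} (hρ : 0 < ρ) :
    ∃ z ∈ ball w ρ, ∫⁻ a, ‖c a - z‖ₑ⁻¹ ∂μ ≤ ENNReal.ofReal (3 / ρ) * μ Set.univ := by
  have hm : Measurable (fun p : ℂ × α => ‖c p.2 - p.1‖ₑ⁻¹) :=
    ((hc.comp measurable_snd).sub measurable_fst).enorm.inv
  have hpos : 0 < π * ρ ^ 2 := by positivity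
  have hvol := volume_ball_eq w hρ
  obtain ⟨z, hz, h⟩ := exists_le_setLAverage (μ := volume) (s := ball w ρ)
    (f := fun z => ∫⁻ a, ‖c a - z‖ₑ⁻¹ ∂μ)
    (by rw [hvol]; simpa using hpos) (by rw [hvol]; exact ENNReal.ofReal_ne_top)
    hm.lintegral_prod_right'.aemeasurable
  refine ⟨z, hz, h.trans ?_⟩
  rw [setLAverage_eq, hvol]
  rw [ENNReal.div_le_iff (by simpa using hpos) ENNReal.ofReal_ne_top]
  refine (lintegral_potential μ c hc w hρ).trans (le_of_eq ?_)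
  rw [mul_right_comm (ENNReal.ofReal (3 / ρ)), ← ENNReal.ofReal_mul (by positivity)]
  congr 2
  field_simp

end Pool.Agent.Lib.MP_65d7a7_an
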