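import Pool.Agent.Lib.MP_65d7a7_an.Cauchy
import Pool.Agent.Lib.MP_65d7a7_an.Potential

/-!
# A Swiss cheese has a nonpeak point
-/

open Metric MeasureTheory Filter Topology
open scoped NNReal ENNReal Real

namespace Pool.Agent.Lib.MP_65d7a7_an

namespace SwissCheese

variable (S : SwissCheese)

/-- The part of the open disc outside all closed removed discs. -/
def good : Set ℂ := ball S.c S.ρ \ ⋃ n, closedBall (S.a n) (S.r n)

lemma measurableSet_good : MeasurableSet S.good :=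
  measurableSet_ball.diff (MeasurableSet.iUnion fun _ => measurableSet_closedBall)

lemma good_subset : S.good ⊆ S.toSet := fun z hz =>
  ⟨ball_subset_closedBall hz.1, fun h => hz.2 (by
    obtain ⟨n, hn⟩ := Set.mem_iUnion.mp h
    exact Set.mem_iUnion.mpr ⟨n, ball_subset_closedBall hn⟩)⟩

/-- The point with real part `t` and imaginary part `y`. -/
lemma abs_re_le {z w : ℂ} {s : ℝ} (h : z ∈ closedBall w s) : |z.re - w.re| ≤ s := by
  rw [mem_closedBall, dist_eq_norm] at h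
  exact (Complex.abs_re_le_norm (z - w)).trans h

/-- For a vertical line meeting only finitely many removed discs, the section of the good set is
open and nonempty. -/
lemma section_pos {t : ℝ} (ht : |t - S.c.re| < S.ρ)
    (hfin : {n | t ∈ closedBall (S.a n).re (S.r n)}.Finite) :
    0 < volume {y : ℝ | (⟨t, y⟩ : ℂ) ∈ S.good} := by
  have hcont : Continuous fun y : ℝ => (⟨t, y⟩ : ℂ) := by
    have : (fun y : ℝ => (⟨t, y⟩ : ℂ)) = fun y : ℝ => (t : ℂ) + (y : ℂ) * Complex.I := by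
      funext y
      apply Complex.ext <;> simp
    rw [this]
    fun_prop
  set O : Set ℝ := {y | (⟨t, y⟩ : ℂ) ∈ ball S.c S.ρ} with hO
  have hOo : IsOpen O := isOpen_ball.preimage hcont
  have hOne : S.c.im ∈ O := by
    rw [hO, Set.mem_ofPred_eq, mem_ball, dist_eq_norm]
    have e : (⟨t, S.c.im⟩ : ℂ) - S.c = ((t - S.c.re : ℝ) : ℂ) := by
      apply Complex.ext <;> simp
    rw [e, Complex.norm_real]
    exact ht
  set F := hfin.toFinset with hF
  set K : Set ℝ := ⋃ n ∈ F, {y | (⟨t, y⟩ : ℂ) ∈ closedBall (S.a n) (S.r n)} with hK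
  have hKc : IsCompact K := by
    refine F.isCompact_biUnion fun n _ => ?_
    refine Metric.isCompact_of_isClosed_isBounded (isClosed_closedBall.preimage hcont) ?_
    refine (Metric.isBounded_closedBall (x := (S.a n).im) (r := S.r n)).subset fun y hy => ?_
    have h1 : (⟨t, y⟩ : ℂ) ∈ closedBall (S.a n) (S.r n) := hy
    rw [mem_closedBall, dist_eq_norm] at h1
    rw [mem_closedBall, Real.dist_eq]
    exact (Complex.abs_im_le_norm ((⟨t, y⟩ : ℂ) - S.a n)).trans h1
  have hsec : {y : ℝ | (⟨t, y⟩ : ℂ) ∈ S.good} = O \ K := by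
    ext y
    constructor
    · rintro ⟨h1, h2⟩
      refine ⟨h1, fun h3 => h2 ?_⟩
      simp only [hK, Set.mem_iUnion] at h3
      obtain ⟨n, _, hn⟩ := h3
      exact Set.mem_iUnion.mpr ⟨n, hn⟩
    · rintro ⟨h1, h2⟩
      refine ⟨h1, fun h3 => h2 ?_⟩
      obtain ⟨n, hn⟩ := Set.mem_iUnion.mp h3
      simp only [hK, Set.mem_iUnion]
      refine ⟨n, ?_, hn⟩
      rw [hF, Set.Finite.mem_toFinset, Set.mem_ofPred_eq, mem_closedBall, Real.dist_eq]
      exact abs_re_le hn
  rw [hsec]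
  have hopen : IsOpen (O \ K) := hOo.sdiff hKc.isClosed
  refine hopen.measure_pos volume ?_
  by_contra hemp
  rw [Set.not_nonempty_iff_eq_empty, Set.sdiff_eq_empty] at hemp
  have hKO : K ⊆ O := by
    intro y hy
    simp only [hK, Set.mem_iUnion] at hy
    obtain ⟨n, _, hn⟩ := hy
    exact S.subset n hn
  have heq : O = K := Set.Subset.antisymm hemp hKO
  have hclopen : IsClopen O := ⟨heq ▸ hKc.isClosed, hOo⟩
  rcases isClopen_iff.mp hclopen with h | h
  · rw [h] at hOne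
    exact hOne
  · rw [← heq, h] at hKc
    exact noncompact_univ ℝ hKc

/-- The good set has positive area. -/
lemma volume_good_pos : volume S.good ≠ 0 := by
  intro h0
  have hmp := Complex.volume_preserving_equiv_real_prod.symm
  set G : Set (ℝ × ℝ) := Complex.measurableEquivRealProd.symm ⁻¹' S.good with hG
  have hGm : MeasurableSet G := Complex.measurableEquivRealProd.symm.measurable S.measurableSet_good
  have hG0 : volume G = 0 := by
    rw [hG, hmp.measure_preimage S.measurableSet_good.nullMeasurableSet, h0]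
  rw [Measure.volume_eq_prod, Measure.measure_prod_null hGm] at hG0
  -- almost every vertical line meets only finitely many removed discs
  have hBC : ∀ᵐ t : ℝ, {n | t ∈ closedBall (S.a n).re (S.r n)}.Finite := by
    refine ae_finite_setOfPred_mem ?_
    have h1 : ∀ n, volume (closedBall (S.a n).re (S.r n)) = ENNReal.ofReal (2 * S.r n) := fun n => by
      rw [Real.volume_closedBall]
    simp_rw [h1]
    have h2 : Summable fun n => 2 * S.r n := S.summable.mul_left 2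
    rw [← ENNReal.ofReal_tsum_of_nonneg (fun n => by have := S.r_pos n; positivity) h2]
    exact ENNReal.ofReal_ne_top
  have hpos : volume (ball S.c.re S.ρ) ≠ 0 := by
    rw [Real.volume_ball]
    have := S.ρ_pos
    simpa using this
  have hae : ∀ᵐ t : ℝ, t ∉ ball S.c.re S.ρ := by
    filter_upwards [hBC, hG0] with t ht1 ht2 ht3
    have h3 : |t - S.c.re| < S.ρ := by
      rw [mem_ball, Real.dist_eq] at ht3
      exact ht3
    have h4 := S.section_pos h3 ht1
    have h5 : Prod.mk t ⁻¹' G = {y : ℝ | (⟨t, y⟩ : ℂ) ∈ S.good} := rfl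
    rw [h5] at ht2
    exact h4.ne' ht2
  apply hpos
  have h6 := ae_iff.mp hae
  have h7 : {t : ℝ | ¬ t ∉ ball S.c.re S.ρ} = ball S.c.re S.ρ := by
    ext t
    exact not_not
  rwa [h7] at h6

/-- There is a good point at which the potential of the radii is finite. -/
lemma exists_good_point : ∃ z ∈ S.good, Summable fun n => S.r n / ‖S.a n - z‖ := by
  have h1 : ∀ᵐ z ∂(volume.restrict (ball S.c S.ρ)),
      ∑' n, ENNReal.ofReal (S.r n) * ‖S.a n - z‖ₑ⁻¹ < ∞ := by
    have hm : ∀ n, Measurable fun z : ℂ => ENNReal.ofReal (S.r n) * ‖S.a n - z‖ₑ⁻¹ := fun n => by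
      exact ((measurable_const.sub measurable_id).enorm.inv).const_mul _
    refine ae_lt_top (Measurable.tsum hm) ?_
    rw [lintegral_tsum fun n => (hm n).aemeasurable]
    have h2 : ∀ n, ∫⁻ z in ball S.c S.ρ, ENNReal.ofReal (S.r n) * ‖S.a n - z‖ₑ⁻¹ ≤
        ENNReal.ofReal (S.r n * (3 * π * S.ρ)) := fun n => by
      rw [lintegral_const_mul' _ _ ENNReal.ofReal_ne_top, ENNReal.ofReal_mul (S.r_pos n).le]
      gcongr
      exact lintegral_ball _ _ _ S.ρ_pos
    refine ne_top_of_le_ne_top ?_ (ENNReal.tsum_le_tsum h2)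
    rw [← ENNReal.ofReal_tsum_of_nonneg]
    · exact ENNReal.ofReal_ne_top
    · intro n
      have h3 := S.r_pos n
      have h4 := S.ρ_pos
      positivity
    · exact S.summable.mul_right _
  rw [ae_restrict_iff' measurableSet_ball] at h1
  by_contra hcon
  push Not at hcon
  apply S.volume_good_pos
  refine measure_mono_null ?_ (ae_iff.mp h1)
  intro z hz
  rw [Set.mem_ofPred_eq]
  intro himp
  apply hcon z hz
  have h2 := himp hz.1
  have hne : ∀ n, 0 < ‖S.a n - z‖ := fun n => by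
    rw [norm_pos_iff, sub_ne_zero]
    rintro rfl
    exact hz.2 (Set.mem_iUnion.mpr ⟨n, mem_closedBall_self (S.r_pos n).le⟩)
  have h3 : ∀ n, ENNReal.ofReal (S.r n) * ‖S.a n - z‖ₑ⁻¹ =
      ENNReal.ofReal (S.r n / ‖S.a n - z‖) := fun n => by
    rw [ENNReal.ofReal_div_of_pos (hne n), ← ofReal_norm, div_eq_mul_inv]
  simp_rw [h3] at h2
  have h4 := ENNReal.summable_toReal h2.ne
  refine h4.congr fun n => ?_
  rw [ENNReal.toReal_ofReal]
  exact div_nonneg (S.r_pos n).le (norm_nonneg _)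

/-- Cauchy's formula at a good point. -/
lemma hasSum_cauchy {z : ℂ} (hz : z ∈ S.good) {P Q : Polynomial ℂ}
    (hQ : ∀ w ∈ S.toSet, Q.eval w ≠ 0) :
    HasSum (fun n => ∮ ζ in C(S.a n, S.r n), P.eval ζ / Q.eval ζ / (ζ - z))
      ((∮ ζ in C(S.c, S.ρ), P.eval ζ / Q.eval ζ / (ζ - z)) -
        P.eval z / Q.eval z * (2 * π * Complex.I)) := by
  have hzX : z ∈ S.toSet := S.good_subset hz
  have hQz : Q.eval z ≠ 0 := hQ z hzX
  -- the divided difference
  set A : Polynomial ℂ := Polynomial.C (Q.eval z) * P - Polynomial.C (P.eval z) * Q with hA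
  have hroot : A.IsRoot z := by
    rw [Polynomial.IsRoot.def, hA]
    simp
    ring
  obtain ⟨B, hB⟩ := Polynomial.dvd_iff_isRoot.mpr hroot
  set Q' : Polynomial ℂ := Q * Polynomial.C (Q.eval z) with hQ'
  have hden : ∀ w ∈ S.toSet, Q'.eval w ≠ 0 := fun w hw => by
    rw [hQ', Polynomial.eval_mul, Polynomial.eval_C]
    exact mul_ne_zero (hQ w hw) hQz
  have hok := cauchyOK_rat (S := S) Q'.natDegree B Q' le_rfl hden
  have hid : ∀ w ∈ S.toSet, w ≠ z → P.eval w / Q.eval w / (w - z) =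
      P.eval z / Q.eval z * (w - z)⁻¹ + B.eval w / Q'.eval w := by
    intro w hw hwz
    have h1 : A.eval w = (w - z) * B.eval w := by
      rw [hB]; simp
    have h2 : A.eval w = Q.eval z * P.eval w - P.eval z * Q.eval w := by
      rw [hA]; simp
    have hQw : Q.eval w ≠ 0 := hQ w hw
    have hwz' : w - z ≠ 0 := sub_ne_zero.mpr hwz
    have h3 : Q'.eval w = Q.eval w * Q.eval z := by
      rw [hQ']; simp
    rw [h3]
    field_simp
    linear_combination h1 - h2
  -- circles do not contain `z`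
  have hzn : ∀ n, ∀ w ∈ closedBall (S.a n) (S.r n), w ≠ z := by
    rintro n w hw rfl
    exact hz.2 (Set.mem_iUnion.mpr ⟨n, hw⟩)
  have hzo : ∀ w ∈ sphere S.c S.ρ, w ≠ z := by
    rintro w hw rfl
    have := hz.1
    rw [mem_ball, mem_sphere.mp hw] at this
    exact lt_irrefl _ this
  have hcB : ContinuousOn (fun w => B.eval w / Q'.eval w) S.toSet := continuousOn_div hden
  have hcinv : ∀ (w : ℂ), w ≠ z → ContinuousAt (fun w : ℂ => P.eval z / Q.eval z * (w - z)⁻¹) w :=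
    fun w hw => by
      have : w - z ≠ 0 := sub_ne_zero.mpr hw
      exact continuousAt_const.mul ((continuousAt_id.sub continuousAt_const).inv₀ this)
  have hn : ∀ n, ∮ ζ in C(S.a n, S.r n), P.eval ζ / Q.eval ζ / (ζ - z) =
      ∮ ζ in C(S.a n, S.r n), B.eval ζ / Q'.eval ζ := by
    intro n
    rw [circleIntegral.integral_congr (S.r_pos n).le fun ζ hζ =>
      hid ζ (S.sphere_subset n hζ) (hzn n ζ (sphere_subset_closedBall hζ))]
    rw [circleIntegral.integral_add, circleIntegral.integral_const_mul,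
      integral_eq_zero (S.r_pos n).le, mul_zero, zero_add]
    · intro ζ hζ
      have : ζ - z ≠ 0 := sub_ne_zero.mpr (hzn n ζ hζ)
      exact (differentiableAt_id.sub_const z).inv this
    · refine ContinuousOn.circleIntegrable (S.r_pos n).le fun ζ hζ => ?_
      exact (hcinv ζ (hzn n ζ (sphere_subset_closedBall hζ))).continuousWithinAt
    · exact (hcB.mono (S.sphere_subset n)).circleIntegrable (S.r_pos n).le
  have ho : ∮ ζ in C(S.c, S.ρ), P.eval ζ / Q.eval ζ / (ζ - z) =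
      P.eval z / Q.eval z * (2 * π * Complex.I) + ∮ ζ in C(S.c, S.ρ), B.eval ζ / Q'.eval ζ := by
    rw [circleIntegral.integral_congr S.ρ_pos.le fun ζ hζ =>
      hid ζ (S.outer_subset hζ) (hzo ζ hζ)]
    rw [circleIntegral.integral_add, circleIntegral.integral_const_mul,
      circleIntegral.integral_sub_inv_of_mem_ball hz.1]
    · refine ContinuousOn.circleIntegrable S.ρ_pos.le fun ζ hζ => ?_
      exact (hcinv ζ (hzo ζ hζ)).continuousWithinAt
    · exact (hcB.mono S.outer_subset).circleIntegrable S.ρ_pos.le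
  rw [ho, add_sub_cancel_left]
  simp_rw [hn]
  exact hok

/-- The weights `r_n / (|z - a_n| - r_n)` are summable at a good point. -/
lemma summable_weights {z : ℂ} (hz : z ∈ S.good) (hs : Summable fun n => S.r n / ‖S.a n - z‖) :
    Summable fun n => S.r n / (‖S.a n - z‖ - S.r n) := by
  have hpos : ∀ n, 0 < ‖S.a n - z‖ - S.r n := fun n => by
    by_contra hcon
    push Not at hcon
    refine hz.2 (Set.mem_iUnion.mpr ⟨n, ?_⟩)
    rw [mem_closedBall, dist_comm, dist_eq_norm]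
    linarith
  have hev : ∀ᶠ n in cofinite, S.r n / ‖S.a n - z‖ < 1 / 2 :=
    hs.tendsto_cofinite_zero.eventually_lt_const (by norm_num)
  refine Summable.of_norm_bounded_eventually (hs.mul_left 2) ?_
  filter_upwards [hev] with n hn
  have h1 := hpos n
  have h2 := S.r_pos n
  have h3 : 0 < ‖S.a n - z‖ := by linarith
  rw [Real.norm_of_nonneg (by positivity), mul_div_assoc', div_le_div_iff₀ h1 h3]
  rw [div_lt_iff₀ h3] at hn
  nlinarith

/-- The representing estimate at a good point. -/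
theorem exists_estimate : ∃ z : S.toSet, ∃ K : Set S.toSet, IsCompact K ∧ z ∉ K ∧
    ∃ C : ℝ, 0 ≤ C ∧ ∀ h ∈ ratAlg S.toSet, ∀ s : ℝ, 0 ≤ s → (∀ ζ ∈ K, ‖h ζ‖ ≤ s) →
      ‖h z‖ ≤ C * s + 1 / 2 * ‖h‖ := by
  obtain ⟨z, hz, hsum⟩ := S.exists_good_point
  have hpos : ∀ n, 0 < ‖S.a n - z‖ - S.r n := fun n => by
    by_contra hcon
    push Not at hcon
    refine hz.2 (Set.mem_iUnion.mpr ⟨n, ?_⟩)
    rw [mem_closedBall, dist_comm, dist_eq_norm]
    linarith
  set w : ℕ → ℝ := fun n => S.r n / (‖S.a n - z‖ - S.r n) with hw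
  have hw0 : ∀ n, 0 ≤ w n := fun n => div_nonneg (S.r_pos n).le (hpos n).le
  have hws : Summable w := S.summable_weights hz hsum
  -- the tail
  obtain ⟨N, hN⟩ : ∃ N : ℕ, ∑' n, w (n + N) < 1 / 2 :=
    ((tendsto_sum_nat_add w).eventually_lt_const (by norm_num)).exists
  set K : Set ℂ := sphere S.c S.ρ ∪ ⋃ n ∈ Finset.range N, sphere (S.a n) (S.r n) with hK
  have hKc : IsCompact K :=
    (isCompact_sphere _ _).union ((Finset.range N).isCompact_biUnion fun n _ => isCompact_sphere _ _)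
  have hout : 0 < S.ρ - ‖z - S.c‖ := by
    have := hz.1
    rw [mem_ball, dist_eq_norm] at this
    linarith
  have hzK : z ∉ K := by
    rintro (h | h)
    · rw [mem_sphere, dist_eq_norm] at h
      linarith
    · simp only [Set.mem_iUnion] at h
      obtain ⟨n, _, hn⟩ := h
      exact hz.2 (Set.mem_iUnion.mpr ⟨n, sphere_subset_closedBall hn⟩)
  refine ⟨⟨z, S.good_subset hz⟩, Subtype.val ⁻¹' K, ?_, hzK, ?_⟩
  · exact (hKc.isClosed.preimage continuous_subtype_val).isCompact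
  set C : ℝ := S.ρ / (S.ρ - ‖z - S.c‖) + ∑ n ∈ Finset.range N, w n with hC
  have hC0 : 0 ≤ C := add_nonneg (div_nonneg S.ρ_pos.le hout.le)
    (Finset.sum_nonneg fun n _ => hw0 n)
  refine ⟨C, hC0, ?_⟩
  rintro h ⟨P, Q, hQ, hPQ⟩ s hs hbd
  have hcs := S.hasSum_cauchy hz (P := P) hQ
  -- bounds of the circle integrals
  have hbn : ∀ n (B : ℝ), 0 ≤ B → (∀ ζ ∈ sphere (S.a n) (S.r n), ‖P.eval ζ / Q.eval ζ‖ ≤ B) →
      ‖∮ ζ in C(S.a n, S.r n), P.eval ζ / Q.eval ζ / (ζ - z)‖ ≤ 2 * π * (w n * B) := by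
    intro n B hB hb
    have h1 : ∀ ζ ∈ sphere (S.a n) (S.r n),
        ‖P.eval ζ / Q.eval ζ / (ζ - z)‖ ≤ B / (‖S.a n - z‖ - S.r n) := by
      intro ζ hζ
      rw [norm_div]
      have h2 : ‖S.a n - z‖ - S.r n ≤ ‖ζ - z‖ := by
        rw [mem_sphere, dist_eq_norm] at hζ
        have h3 : ‖S.a n - z‖ ≤ ‖S.a n - ζ‖ + ‖ζ - z‖ := by
          calc ‖S.a n - z‖ = ‖(S.a n - ζ) + (ζ - z)‖ := by congr 1; ring
            _ ≤ _ := norm_add_le _ _
        rw [norm_sub_rev (S.a n) ζ, hζ] at h3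
        linarith
      have h4 := hpos n
      exact div_le_div₀ hB (hb ζ hζ) h4 h2
    refine (circleIntegral.norm_integral_le_of_norm_le_const (S.r_pos n).le h1).trans
      (le_of_eq ?_)
    rw [hw]
    ring
  have hbo : ‖∮ ζ in C(S.c, S.ρ), P.eval ζ / Q.eval ζ / (ζ - z)‖ ≤
      2 * π * (S.ρ / (S.ρ - ‖z - S.c‖) * s) := by
    have h1 : ∀ ζ ∈ sphere S.c S.ρ,
        ‖P.eval ζ / Q.eval ζ / (ζ - z)‖ ≤ s / (S.ρ - ‖z - S.c‖) := by
      intro ζ hζ
      have hb : ‖P.eval ζ / Q.eval ζ‖ ≤ s := by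
        have := hbd ⟨ζ, S.outer_subset hζ⟩ (Or.inl hζ)
        rwa [hPQ] at this
      rw [norm_div]
      have h2 : S.ρ - ‖z - S.c‖ ≤ ‖ζ - z‖ := by
        rw [mem_sphere, dist_eq_norm] at hζ
        have h3 : ‖ζ - S.c‖ ≤ ‖ζ - z‖ + ‖z - S.c‖ := by
          calc ‖ζ - S.c‖ = ‖(ζ - z) + (z - S.c)‖ := by congr 1; ring
            _ ≤ _ := norm_add_le _ _
        linarith
      exact div_le_div₀ hs hb hout h2
    refine (circleIntegral.norm_integral_le_of_norm_le_const S.ρ_pos.le h1).trans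
      (le_of_eq ?_)
    ring
  have hnorm : ∀ n, ∀ ζ ∈ sphere (S.a n) (S.r n), ‖P.eval ζ / Q.eval ζ‖ ≤ ‖h‖ := by
    intro n ζ hζ
    have := h.norm_coe_le_norm ⟨ζ, S.sphere_subset n hζ⟩
    rwa [hPQ] at this
  have hnormK : ∀ n ∈ Finset.range N, ∀ ζ ∈ sphere (S.a n) (S.r n),
      ‖P.eval ζ / Q.eval ζ‖ ≤ s := by
    intro n hn ζ hζ
    have := hbd ⟨ζ, S.sphere_subset n hζ⟩ (Or.inr (by
      simp only [Set.mem_iUnion]
      exact ⟨n, hn, hζ⟩))
    rwa [hPQ] at this
  -- the sum over the removed discs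
  set I : ℕ → ℂ := fun n => ∮ ζ in C(S.a n, S.r n), P.eval ζ / Q.eval ζ / (ζ - z) with hI
  have hIs : Summable I := hcs.summable
  have htail : ‖∑' n, I (n + N)‖ ≤ 2 * π * (1 / 2 * ‖h‖) := by
    have h1 : ∀ n, ‖I (n + N)‖ ≤ 2 * π * (w (n + N) * ‖h‖) := fun n =>
      hbn (n + N) ‖h‖ (norm_nonneg _) (hnorm _)
    have h2 : Summable fun n => w (n + N) := (summable_nat_add_iff N).mpr hws
    have h3 : HasSum (fun n => 2 * π * (w (n + N) * ‖h‖)) (2 * π * ((∑' n, w (n + N)) * ‖h‖)) :=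
      (h2.hasSum.mul_right _).mul_left _
    refine (tsum_of_norm_bounded h3 h1).trans ?_
    have : (0 : ℝ) < π := Real.pi_pos
    gcongr
  have hhead : ‖∑ n ∈ Finset.range N, I n‖ ≤ 2 * π * ((∑ n ∈ Finset.range N, w n) * s) := by
    rw [Finset.sum_mul, Finset.mul_sum]
    exact norm_sum_le_of_le _ fun n hn => hbn n s hs (hnormK n hn)
  have heq : P.eval z / Q.eval z * (2 * π * Complex.I) =
      (∮ ζ in C(S.c, S.ρ), P.eval ζ / Q.eval ζ / (ζ - z)) -
        (∑ n ∈ Finset.range N, I n + ∑' n, I (n + N)) := by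
    rw [hIs.sum_add_tsum_nat_add N, hcs.tsum_eq]
    ring
  have hval : ‖h ⟨z, S.good_subset hz⟩‖ * (2 * π) =
      ‖P.eval z / Q.eval z * (2 * π * Complex.I)‖ := by
    rw [hPQ, norm_mul, norm_mul, norm_mul, Complex.norm_I, mul_one, Complex.norm_real,
      Real.norm_of_nonneg Real.pi_pos.le, RCLike.norm_ofNat]
  have hfin : ‖h ⟨z, S.good_subset hz⟩‖ * (2 * π) ≤ (C * s + 1 / 2 * ‖h‖) * (2 * π) := by
    rw [hval, heq]
    calc _ ≤ ‖∮ ζ in C(S.c, S.ρ), P.eval ζ / Q.eval ζ / (ζ - z)‖ +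
          (‖∑ n ∈ Finset.range N, I n‖ + ‖∑' n, I (n + N)‖) :=
          (norm_sub_le _ _).trans (add_le_add le_rfl (norm_add_le _ _))
      _ ≤ 2 * π * (S.ρ / (S.ρ - ‖z - S.c‖) * s) +
          (2 * π * ((∑ n ∈ Finset.range N, w n) * s) + 2 * π * (1 / 2 * ‖h‖)) := by
          gcongr
      _ = (C * s + 1 / 2 * ‖h‖) * (2 * π) := by
          rw [hC]; ring
  exact le_of_mul_le_mul_right hfin (by positivity)

/-- A Swiss cheese has a nonpeak point. -/
theorem exists_nonpeak : ∃ z : S.toSet, ¬ IsPeakPoint z := by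
  obtain ⟨z, K, hK, hzK, C, hC, hest⟩ := S.exists_estimate
  refine ⟨z, ?_⟩
  rintro ⟨f, hf, hfz, hfy⟩
  -- the maximum of `|f|` on `K`
  obtain ⟨q, hq0, hq1, hq⟩ : ∃ q : ℝ, 0 ≤ q ∧ q < 1 ∧ ∀ ζ ∈ K, ‖f ζ‖ ≤ q := by
    rcases K.eq_empty_or_nonempty with h | h
    · exact ⟨0, le_rfl, one_pos, by rw [h]; simp⟩
    · obtain ⟨ζ₀, hζ₀, hmax⟩ := hK.exists_isMaxOn h (f := fun ζ => ‖f ζ‖) (by fun_prop)
      refine ⟨‖f ζ₀‖, norm_nonneg _, hfy ζ₀ ?_, fun ζ hζ => hmax hζ⟩
      rintro rfl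
      exact hzK hζ₀
  obtain ⟨k, hk⟩ := exists_pow_lt_of_lt_one (show (0 : ℝ) < 1 / (8 * (C + 1)) by positivity) hq1
  set δ : ℝ := 1 / (16 * (C + 1)) with hδ
  have hδ0 : 0 < δ := by positivity
  have hδ1 : δ ≤ 1 / 16 := by
    rw [hδ]
    apply div_le_div_of_nonneg_left (by norm_num) (by norm_num) (by linarith)
  have hCδ : C * δ ≤ 1 / 16 := by
    rw [hδ, mul_one_div, div_le_div_iff₀ (by positivity) (by norm_num)]
    linarith
  have hCq : C * q ^ k ≤ 1 / 8 := by
    calc C * q ^ k ≤ C * (1 / (8 * (C + 1))) := by gcongr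
      _ ≤ 1 / 8 := by
        rw [mul_one_div, div_le_div_iff₀ (by positivity) (by norm_num)]
        linarith
  have hfk : f ^ k ∈ R S.toSet := pow_mem hf k
  have hcl : f ^ k ∈ closure (ratAlg S.toSet : Set C(S.toSet, ℂ)) := hfk
  obtain ⟨g, hg, hfg⟩ := Metric.mem_closure_iff.mp hcl δ hδ0
  rw [dist_eq_norm] at hfg
  have hf1 : ‖f ^ k‖ ≤ 1 := by
    rw [ContinuousMap.norm_le _ zero_le_one]
    intro y
    rw [ContinuousMap.pow_apply, norm_pow]
    refine pow_le_one₀ (norm_nonneg _) ?_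
    by_cases hy : y = z
    · rw [hy, hfz, norm_one]
    · exact (hfy y hy).le
  have hgn : ‖g‖ ≤ 1 + δ := by
    calc ‖g‖ = ‖f ^ k - (f ^ k - g)‖ := by rw [sub_sub_cancel]
      _ ≤ ‖f ^ k‖ + ‖f ^ k - g‖ := norm_sub_le _ _
      _ ≤ 1 + δ := add_le_add hf1 hfg.le
  have hgK : ∀ ζ ∈ K, ‖g ζ‖ ≤ q ^ k + δ := by
    intro ζ hζ
    calc ‖g ζ‖ = ‖(f ^ k) ζ - (f ^ k - g) ζ‖ := by
          rw [ContinuousMap.sub_apply, sub_sub_cancel]
      _ ≤ ‖(f ^ k) ζ‖ + ‖(f ^ k - g) ζ‖ := norm_sub_le _ _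
      _ ≤ q ^ k + δ := by
          refine add_le_add ?_ (((f ^ k - g).norm_coe_le_norm ζ).trans hfg.le)
          rw [ContinuousMap.pow_apply, norm_pow]
          exact pow_le_pow_left₀ (norm_nonneg _) (hq ζ hζ) k
  have h1 := hest g hg (q ^ k + δ) (by positivity) hgK
  have h2 : 1 - δ ≤ ‖g z‖ := by
    have h3 : ‖(f ^ k - g) z‖ ≤ δ := ((f ^ k - g).norm_coe_le_norm z).trans hfg.le
    have h4 : (f ^ k) z = 1 := by rw [ContinuousMap.pow_apply, hfz, one_pow]
    have h5 : (1 : ℂ) = g z + (f ^ k - g) z := by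
      rw [ContinuousMap.sub_apply, h4]; ring
    have h6 : (1 : ℝ) ≤ ‖g z‖ + ‖(f ^ k - g) z‖ := by
      calc (1 : ℝ) = ‖(1 : ℂ)‖ := norm_one.symm
        _ = ‖g z + (f ^ k - g) z‖ := by rw [← h5]
        _ ≤ _ := norm_add_le _ _
    linarith
  nlinarith

end SwissCheese

end Pool.Agent.Lib.MP_65d7a7_an
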