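import Pool.Agent.Lib.MP_65d7a7_an.Elementary
import Pool.Agent.Lib.MP_65d7a7_an.Baire
import Pool.Agent.Lib.MP_65d7a7_an.Nonpeak

/-!
# From the elementary definitions to the ones in `C(X)`
-/

open Metric Filter Topology

namespace Pool.Agent.Lib.MP_65d7a7_an

open Elementary

variable {X : Set ℂ} [CompactSpace X]

lemma memR_of_mem {F : C(X, ℂ)} (hF : F ∈ R X) : MemR X F := by
  intro ε hε
  have hcl : F ∈ closure (ratAlg X : Set C(X, ℂ)) := hF
  obtain ⟨g, ⟨P, Q, hQ, hg⟩, hFg⟩ := Metric.mem_closure_iff.mp hcl ε hε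
  refine ⟨g, ⟨P, Q, hQ, hg⟩, fun z => ?_⟩
  rw [dist_eq_norm] at hFg
  exact ((F - g).norm_coe_le_norm z).trans hFg.le

omit [CompactSpace X] in
lemma continuous_of_isRational {g : X → ℂ} (hg : IsRational X g) : Continuous g := by
  obtain ⟨P, Q, hQ, hg⟩ := hg
  have : g = fun z : X => P.eval (z : ℂ) / Q.eval (z : ℂ) := funext hg
  rw [this]
  refine Continuous.div ?_ ?_ fun z => hQ z z.2
  · exact P.continuous.comp continuous_subtype_val
  · exact Q.continuous.comp continuous_subtype_val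

omit [CompactSpace X] in
lemma continuous_of_memR {f : X → ℂ} (hf : MemR X f) : Continuous f := by
  choose g hg hfg using fun n : ℕ => hf (1 / ((n : ℝ) + 1)) (by positivity)
  have h1 : TendstoUniformly g f atTop := by
    rw [Metric.tendstoUniformly_iff]
    intro ε hε
    obtain ⟨N, hN⟩ := exists_nat_one_div_lt hε
    filter_upwards [eventually_ge_atTop N] with n hn z
    rw [dist_eq_norm]
    refine (hfg n z).trans_lt (lt_of_le_of_lt ?_ hN)
    exact one_div_le_one_div_of_le (by positivity) (by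
      have : (N : ℝ) ≤ n := by exact_mod_cast hn
      linarith)
  exact h1.continuous (Frequently.of_forall fun n => continuous_of_isRational (hg n))

lemma mem_of_memR {f : X → ℂ} (hf : MemR X f) :
    (⟨f, continuous_of_memR hf⟩ : C(X, ℂ)) ∈ R X := by
  show (⟨f, continuous_of_memR hf⟩ : C(X, ℂ)) ∈ closure (ratAlg X : Set C(X, ℂ))
  rw [Metric.mem_closure_iff]
  intro ε hε
  obtain ⟨g, hg, hfg⟩ := hf (ε / 2) (half_pos hε)
  have hgc := continuous_of_isRational hg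
  obtain ⟨P, Q, hQ, hg⟩ := hg
  refine ⟨⟨g, hgc⟩, ⟨P, Q, hQ, hg⟩, ?_⟩
  rw [dist_eq_norm]
  have h1 : ‖(⟨f, continuous_of_memR hf⟩ : C(X, ℂ)) - ⟨g, hgc⟩‖ ≤ ε / 2 := by
    rw [ContinuousMap.norm_le _ (half_pos hε).le]
    exact hfg
  linarith

lemma isPeakPoint_of_elementary {x : X} (h : Elementary.IsPeakPoint X x) :
    Pool.Agent.Lib.MP_65d7a7_an.IsPeakPoint x := by
  obtain ⟨f, hf, hfx, hfy⟩ := h
  exact ⟨⟨f, continuous_of_memR hf⟩, mem_of_memR hf, hfx, hfy⟩

/-- The linear functional on `R(X)` given by an elementary bounded point derivation. -/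
noncomputable def toLinear {x : X} {D : (X → ℂ) → ℂ} (hD : IsBoundedPointDerivation X x D) :
    R X →ₗ[ℂ] ℂ where
  toFun f := D f.1
  map_add' f g := hD.add _ _ (memR_of_mem f.2) (memR_of_mem g.2)
  map_smul' c f := hD.smul c _ (memR_of_mem f.2)

lemma toLinear_derivation {x : X} {D : (X → ℂ) → ℂ} (hD : IsBoundedPointDerivation X x D) :
    IsPointDerivation x (toLinear hD) := fun f g =>
  hD.leibniz _ _ (memR_of_mem f.2) (memR_of_mem g.2)

lemma toLinear_bounded {x : X} {D : (X → ℂ) → ℂ} (hD : IsBoundedPointDerivation X x D) :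
    IsBoundedFunctional (toLinear hD) := by
  obtain ⟨C, hC⟩ := hD.bounded
  refine ⟨C, fun f => ?_⟩
  rcases eq_or_ne f 0 with rfl | hf
  · simp
  have hpos : 0 < ‖f.1‖ := norm_pos_iff.mpr fun h => hf (Subtype.ext h)
  have hne : (‖f.1‖ : ℂ) ≠ 0 := by exact_mod_cast hpos.ne'
  have h1 := hC ((((‖f.1‖ : ℂ)⁻¹) • f : R X).1) (memR_of_mem (((‖f.1‖ : ℂ)⁻¹) • f : R X).2)
    (fun z => by
      have h2 : (((‖f.1‖ : ℂ)⁻¹) • f : R X).1 z = (‖f.1‖ : ℂ)⁻¹ * f.1 z := rfl
      rw [h2, norm_mul, norm_inv, Complex.norm_real, norm_norm, inv_mul_le_iff₀ hpos, mul_one]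
      exact f.1.norm_coe_le_norm z)
  have h3 : D (((‖f.1‖ : ℂ)⁻¹) • f : R X).1 = (‖f.1‖ : ℂ)⁻¹ * D f.1 :=
    hD.smul _ _ (memR_of_mem f.2)
  rw [h3, norm_mul, norm_inv, Complex.norm_real, norm_norm, inv_mul_le_iff₀ hpos] at h1
  show ‖D f.1‖ ≤ C * ‖f.1‖
  linarith

/-- The main theorem in elementary form. -/
theorem main {X : Set ℂ} (hX : IsSwissCheese X) :
    ∃ x : X, ¬ Elementary.IsPeakPoint X x ∧
      ∀ D : (X → ℂ) → ℂ, IsBoundedPointDerivation X x D → ∀ f, MemR X f → D f = 0 := by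
  obtain ⟨c, ρ, a, r, hρ, hr, hsub, hdis, hsum, hXeq, hint⟩ := hX
  subst hXeq
  set S : SwissCheese := ⟨c, ρ, a, r, hρ, hr, hsub, hdis, hsum, hint⟩ with hS
  obtain ⟨x, hx, hBD⟩ := exists_nonpeak_not_BD (X := S.toSet) S.interior_eq S.exists_nonpeak
  refine ⟨x, fun h => hx (isPeakPoint_of_elementary (X := S.toSet) h), fun D hD f hf => ?_⟩
  have h0 : toLinear (X := S.toSet) hD = 0 := by
    by_contra hne
    obtain ⟨M, hM⟩ := BD_of_derivation (toLinear_derivation (X := S.toSet) hD)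
      (toLinear_bounded (X := S.toSet) hD) hne
    exact hBD M hM
  have h1 : toLinear (X := S.toSet) hD ⟨_, mem_of_memR (X := S.toSet) hf⟩ = 0 := by
    rw [h0]; rfl
  exact h1

end Pool.Agent.Lib.MP_65d7a7_an
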