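import Mathlib

/-!
# Swiss cheeses, the algebra `R(X)`, peak points and point derivations
-/

open Metric

namespace Pool.Agent.Lib.MP_65d7a7_an

/-- A Swiss cheese: a closed disc with a sequence of open discs removed, where the closures
of the removed discs are pairwise disjoint and contained in the open disc, the radii are summable
and the remaining set has empty interior. -/
structure SwissCheese where
  /-- centre of the big disc -/
  c : ℂ
  /-- radius of the big disc -/
  ρ : ℝ
  /-- centres of the removed discs -/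
  a : ℕ → ℂ
  /-- radii of the removed discs -/
  r : ℕ → ℝ
  ρ_pos : 0 < ρ
  r_pos : ∀ n, 0 < r n
  subset : ∀ n, closedBall (a n) (r n) ⊆ ball c ρ
  disjoint : ∀ m n, m ≠ n → Disjoint (closedBall (a m) (r m)) (closedBall (a n) (r n))
  summable : Summable r
  interior_eq : interior (closedBall c ρ \ ⋃ n, ball (a n) (r n)) = ∅

/-- The set underlying a Swiss cheese. -/
def SwissCheese.toSet (S : SwissCheese) : Set ℂ :=
  closedBall S.c S.ρ \ ⋃ n, ball (S.a n) (S.r n)

instance (S : SwissCheese) : CompactSpace S.toSet :=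
  isCompact_iff_compactSpace.mp
    ((isCompact_closedBall S.c S.ρ).diff (isOpen_iUnion fun _ => isOpen_ball))

/-- The algebra of (restrictions to `X` of) rational functions with poles off `X`. -/
def ratAlg (X : Set ℂ) : Subalgebra ℂ C(X, ℂ) where
  carrier := {f | ∃ P Q : Polynomial ℂ, (∀ z ∈ X, Q.eval z ≠ 0) ∧
    ∀ z : X, f z = P.eval (z : ℂ) / Q.eval (z : ℂ)}
  mul_mem' := by
    rintro f g ⟨P, Q, hQ, hf⟩ ⟨P', Q', hQ', hg⟩
    refine ⟨P * P', Q * Q', fun z hz => ?_, fun z => ?_⟩
    · rw [Polynomial.eval_mul]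
      exact mul_ne_zero (hQ z hz) (hQ' z hz)
    · rw [ContinuousMap.mul_apply, hf, hg, Polynomial.eval_mul, Polynomial.eval_mul,
        div_mul_div_comm]
  add_mem' := by
    rintro f g ⟨P, Q, hQ, hf⟩ ⟨P', Q', hQ', hg⟩
    refine ⟨P * Q' + Q * P', Q * Q', fun z hz => ?_, fun z => ?_⟩
    · rw [Polynomial.eval_mul]
      exact mul_ne_zero (hQ z hz) (hQ' z hz)
    · rw [ContinuousMap.add_apply, hf, hg, Polynomial.eval_mul, Polynomial.eval_add,
        Polynomial.eval_mul, Polynomial.eval_mul,
        div_add_div _ _ (hQ z z.2) (hQ' z z.2)]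
  algebraMap_mem' := by
    intro w
    exact ⟨Polynomial.C w, 1, fun z _ => by simp, fun z => by simp⟩

section

variable {X : Set ℂ} [CompactSpace X]

/-- `R(X)`: the uniform closure in `C(X)` of the rational functions with poles off `X`. -/
noncomputable def R (X : Set ℂ) [CompactSpace X] : Subalgebra ℂ C(X, ℂ) := (ratAlg X).topologicalClosure

/-- `x` is a peak point for `R(X)`. -/
def IsPeakPoint (x : X) : Prop :=
  ∃ f ∈ R X, f x = 1 ∧ ∀ y : X, y ≠ x → ‖f y‖ < 1

/-- The linear functional `D` on `R(X)` is a point derivation at `x`. -/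
def IsPointDerivation (x : X) (D : R X →ₗ[ℂ] ℂ) : Prop :=
  ∀ f g : R X, D (f * g) = f.1 x * D g + g.1 x * D f

/-- The linear functional `D` on `R(X)` is bounded for the supremum norm. -/
def IsBoundedFunctional (D : R X →ₗ[ℂ] ℂ) : Prop :=
  ∃ C : ℝ, ∀ f : R X, ‖D f‖ ≤ C * ‖f.1‖

end

end Pool.Agent.Lib.MP_65d7a7_an
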