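import Mathlib

/-!
# Elementary definitions used in the statement

Functions on `X` are plain functions `X → ℂ`.
-/

open Metric

namespace Pool.Agent.Lib.MP_65d7a7_an.Elementary

/-- `X` is a Swiss cheese: a closed disc with a sequence of open discs removed, where the closures
of the removed discs are pairwise disjoint and contained in the open disc, the radii are summable
and `X` has empty interior. -/
def IsSwissCheese (X : Set ℂ) : Prop :=
  ∃ (c : ℂ) (ρ : ℝ) (a : ℕ → ℂ) (r : ℕ → ℝ),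
    0 < ρ ∧ (∀ n, 0 < r n) ∧
    (∀ n, closedBall (a n) (r n) ⊆ ball c ρ) ∧
    (∀ m n, m ≠ n → Disjoint (closedBall (a m) (r m)) (closedBall (a n) (r n))) ∧
    Summable r ∧
    X = closedBall c ρ \ ⋃ n, ball (a n) (r n) ∧
    interior X = ∅

/-- `f` is the restriction to `X` of a rational function with poles off `X`. -/
def IsRational (X : Set ℂ) (f : X → ℂ) : Prop :=
  ∃ P Q : Polynomial ℂ, (∀ z ∈ X, Q.eval z ≠ 0) ∧ ∀ z : X, f z = P.eval (z : ℂ) / Q.eval (z : ℂ)

/-- `f` belongs to `R(X)`: it is a uniform limit on `X` of rational functions with poles off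
`X`. -/
def MemR (X : Set ℂ) (f : X → ℂ) : Prop :=
  ∀ ε : ℝ, 0 < ε → ∃ g : X → ℂ, IsRational X g ∧ ∀ z : X, ‖f z - g z‖ ≤ ε

/-- `x` is a peak point for `R(X)`. -/
def IsPeakPoint (X : Set ℂ) (x : X) : Prop :=
  ∃ f : X → ℂ, MemR X f ∧ f x = 1 ∧ ∀ y : X, y ≠ x → ‖f y‖ < 1

/-- `D` restricts to a bounded point derivation on `R(X)` at `x` (the values of `D` at functions
outside `R(X)` are irrelevant). -/
structure IsBoundedPointDerivation (X : Set ℂ) (x : X) (D : (X → ℂ) → ℂ) : Prop where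
  add : ∀ f g, MemR X f → MemR X g → D (f + g) = D f + D g
  smul : ∀ (c : ℂ) f, MemR X f → D (c • f) = c * D f
  leibniz : ∀ f g, MemR X f → MemR X g → D (f * g) = f x * D g + g x * D f
  bounded : ∃ C : ℝ, ∀ f, MemR X f → (∀ z, ‖f z‖ ≤ 1) → ‖D f‖ ≤ C

end Pool.Agent.Lib.MP_65d7a7_an.Elementary
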