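import Mathlib

/-!
# Domination of a bounded functional on `C(X, ℂ)` by a finite positive measure
-/

open scoped NNReal ENNReal CompactlySupported
open MeasureTheory

namespace Pool.Agent.Lib.MP_65d7a7_an

section Variation

variable {X : Type*} [TopologicalSpace X] [CompactSpace X]

/-- The total variation functional. -/
noncomputable def V (L : C(X, ℂ) →L[ℂ] ℂ) (f : C_c(X, ℝ≥0)) : ℝ≥0 :=
  ⨆ g : {g : C(X, ℂ) // ∀ x, ‖g x‖₊ ≤ f x}, ‖L g.1‖₊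

instance (f : C_c(X, ℝ≥0)) : Nonempty {g : C(X, ℂ) // ∀ x, ‖g x‖₊ ≤ f x} :=
  ⟨⟨0, fun x => by simp⟩⟩

lemma nnnorm_le_of_forall {g : C(X, ℂ)} {c : ℝ≥0} (h : ∀ x, ‖g x‖₊ ≤ c) : ‖g‖₊ ≤ c := by
  rw [← NNReal.coe_le_coe, coe_nnnorm]
  exact (ContinuousMap.norm_le _ c.coe_nonneg).mpr fun x => by exact_mod_cast h x

lemma exists_bound (f : C_c(X, ℝ≥0)) : ∃ c : ℝ≥0, ∀ x, f x ≤ c := by
  have h := (isCompact_range (map_continuous f)).bddAbove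
  obtain ⟨c, hc⟩ := h
  exact ⟨c, fun x => hc ⟨x, rfl⟩⟩

lemma bddAbove_V (L : C(X, ℂ) →L[ℂ] ℂ) (f : C_c(X, ℝ≥0)) :
    BddAbove (Set.range fun g : {g : C(X, ℂ) // ∀ x, ‖g x‖₊ ≤ f x} => ‖L g.1‖₊) := by
  obtain ⟨c, hc⟩ := exists_bound f
  refine ⟨‖L‖₊ * c, ?_⟩
  rintro _ ⟨⟨g, hg⟩, rfl⟩
  refine (L.le_opNNNorm g).trans ?_
  gcongr
  exact nnnorm_le_of_forall fun x => (hg x).trans (hc x)

lemma le_V (L : C(X, ℂ) →L[ℂ] ℂ) (f : C_c(X, ℝ≥0)) (g : C(X, ℂ)) (hg : ∀ x, ‖g x‖₊ ≤ f x) :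
    ‖L g‖₊ ≤ V L f :=
  le_ciSup (bddAbove_V L f) (⟨g, hg⟩ : {g : C(X, ℂ) // ∀ x, ‖g x‖₊ ≤ f x})

lemma V_le (L : C(X, ℂ) →L[ℂ] ℂ) (f : C_c(X, ℝ≥0)) (c : ℝ≥0) (hc : ∀ x, f x ≤ c) :
    V L f ≤ ‖L‖₊ * c := by
  refine ciSup_le fun g => ?_
  refine (L.le_opNNNorm g.1).trans ?_
  gcongr
  exact nnnorm_le_of_forall fun x => (g.2 x).trans (hc x)

/-- Rotating a complex number to its absolute value. -/
lemma exists_unimodular (w : ℂ) : ∃ θ : ℂ, ‖θ‖ ≤ 1 ∧ θ * w = (‖w‖ : ℂ) := by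
  by_cases hw : w = 0
  · exact ⟨0, by simp, by simp [hw]⟩
  · refine ⟨starRingEnd ℂ w / ‖w‖, ?_, ?_⟩
    · rw [norm_div, RCLike.norm_conj, Complex.norm_real, norm_norm, div_self (norm_ne_zero_iff.mpr hw)]
    · have h : (‖w‖ : ℂ) ≠ 0 := by exact_mod_cast norm_ne_zero_iff.mpr hw
      rw [div_mul_eq_mul_div, mul_comm, Complex.mul_conj, Complex.normSq_eq_norm_sq]
      field_simp
      push_cast
      ring

lemma V_add_ge (L : C(X, ℂ) →L[ℂ] ℂ) (f₁ f₂ : C_c(X, ℝ≥0)) :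
    V L f₁ + V L f₂ ≤ V L (f₁ + f₂) := by
  have key : ∀ g₁ : {g : C(X, ℂ) // ∀ x, ‖g x‖₊ ≤ f₁ x},
      ∀ g₂ : {g : C(X, ℂ) // ∀ x, ‖g x‖₊ ≤ f₂ x},
      ‖L g₁.1‖₊ + ‖L g₂.1‖₊ ≤ V L (f₁ + f₂) := by
    rintro ⟨g₁, h₁⟩ ⟨g₂, h₂⟩
    obtain ⟨θ₁, hθ₁, e₁⟩ := exists_unimodular (L g₁)
    obtain ⟨θ₂, hθ₂, e₂⟩ := exists_unimodular (L g₂)
    have hL : L (θ₁ • g₁ + θ₂ • g₂) = ((‖L g₁‖ + ‖L g₂‖ : ℝ) : ℂ) := by
      rw [map_add, map_smul, map_smul, smul_eq_mul, smul_eq_mul, e₁, e₂]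
      push_cast; ring
    have h := le_V L (f₁ + f₂) (θ₁ • g₁ + θ₂ • g₂) (fun x => by
      have a₁ : ‖θ₁ • g₁ x‖₊ ≤ f₁ x := by
        rw [nnnorm_smul]
        calc ‖θ₁‖₊ * ‖g₁ x‖₊ ≤ 1 * f₁ x := mul_le_mul' (by exact_mod_cast hθ₁) (h₁ x)
          _ = f₁ x := one_mul _
      have a₂ : ‖θ₂ • g₂ x‖₊ ≤ f₂ x := by
        rw [nnnorm_smul]
        calc ‖θ₂‖₊ * ‖g₂ x‖₊ ≤ 1 * f₂ x := mul_le_mul' (by exact_mod_cast hθ₂) (h₂ x)
          _ = f₂ x := one_mul _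
      simp only [ContinuousMap.coe_add, ContinuousMap.coe_smul, Pi.add_apply, Pi.smul_apply,
        CompactlySupportedContinuousMap.coe_add]
      exact (nnnorm_add_le _ _).trans (add_le_add a₁ a₂))
    rw [hL] at h
    rw [← NNReal.coe_le_coe] at h ⊢
    rw [coe_nnnorm, Complex.norm_real, Real.norm_of_nonneg (by positivity)] at h
    simpa using h
  have : V L f₁ ≤ V L (f₁ + f₂) - V L f₂ := by
    refine ciSup_le fun g₁ => ?_
    have h2 : V L f₂ ≤ V L (f₁ + f₂) - ‖L g₁.1‖₊ := by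
      refine ciSup_le fun g₂ => ?_
      have := key g₁ g₂
      exact le_tsub_of_add_le_left this
    have h3 : ‖L g₁.1‖₊ ≤ V L (f₁ + f₂) := by
      have := key g₁ ⟨0, fun x => by simp⟩
      exact le_trans (le_add_of_nonneg_right zero_le) this
    have h4 : V L f₂ + ‖L g₁.1‖₊ ≤ V L (f₁ + f₂) := by
      calc V L f₂ + ‖L g₁.1‖₊ ≤ V L (f₁ + f₂) - ‖L g₁.1‖₊ + ‖L g₁.1‖₊ := by gcongr
        _ = V L (f₁ + f₂) := tsub_add_cancel_of_le h3
    exact le_tsub_of_add_le_left h4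
  have h5 : V L f₂ ≤ V L (f₁ + f₂) := by
    refine ciSup_le fun g₂ => ?_
    have := key ⟨0, fun x => by simp⟩ g₂
    exact le_trans (le_add_of_nonneg_left zero_le) this
  calc V L f₁ + V L f₂ ≤ V L (f₁ + f₂) - V L f₂ + V L f₂ := by gcongr
    _ = V L (f₁ + f₂) := tsub_add_cancel_of_le h5

lemma V_add_le (L : C(X, ℂ) →L[ℂ] ℂ) (f₁ f₂ : C_c(X, ℝ≥0)) :
    V L (f₁ + f₂) ≤ V L f₁ + V L f₂ := by
  refine ciSup_le ?_
  rintro ⟨g, hg⟩
  show ‖L g‖₊ ≤ V L f₁ + V L f₂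
  refine le_of_forall_pos_le_add fun ε hε => ?_
  -- choose δ with ‖L‖ δ ≤ ε
  set δ : ℝ≥0 := ε / (‖L‖₊ + 1) with hδ
  have hδ0 : 0 < δ := by positivity
  have hδ' : ‖L‖₊ * δ ≤ ε := by
    rw [hδ, mul_div_assoc']
    rw [div_le_iff₀ (by positivity)]
    nlinarith [(zero_le : 0 ≤ ε)]
  -- the splitting
  set den : X → ℝ := fun x => (f₁ x : ℝ) + f₂ x + δ with hden
  have hdenpos : ∀ x, 0 < den x := fun x => by
    have : (0 : ℝ) < δ := by exact_mod_cast hδ0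
    have h1 : (0 : ℝ) ≤ f₁ x := (f₁ x).coe_nonneg
    have h2 : (0 : ℝ) ≤ f₂ x := (f₂ x).coe_nonneg
    show 0 < (f₁ x : ℝ) + f₂ x + δ
    linarith
  have hdc : Continuous den := by
    have h1 : Continuous fun x => (f₁ x : ℝ) := NNReal.continuous_coe.comp (map_continuous f₁)
    have h2 : Continuous fun x => (f₂ x : ℝ) := NNReal.continuous_coe.comp (map_continuous f₂)
    exact (h1.add h2).add continuous_const
  have hcont : ∀ f : C_c(X, ℝ≥0), Continuous fun x => (((f x : ℝ) / den x : ℝ) : ℂ) * g x := by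
    intro f
    have h1 : Continuous fun x => (f x : ℝ) := NNReal.continuous_coe.comp (map_continuous f)
    exact (Complex.continuous_ofReal.comp (h1.div hdc fun x => (hdenpos x).ne')).mul
      (map_continuous g)
  set g₁ : C(X, ℂ) := ⟨_, hcont f₁⟩ with hg₁
  set g₂ : C(X, ℂ) := ⟨_, hcont f₂⟩ with hg₂
  have hgn : ∀ x, ‖g x‖ ≤ f₁ x + f₂ x := fun x => by
    have := hg x
    rw [← NNReal.coe_le_coe] at this
    simpa using this
  have bnd : ∀ f : C_c(X, ℝ≥0), ∀ x, ‖(((f x : ℝ) / den x : ℝ) : ℂ) * g x‖ ≤ f x := by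
    intro f x
    rw [norm_mul, Complex.norm_real, Real.norm_of_nonneg (div_nonneg (f x).coe_nonneg
      (hdenpos x).le), div_mul_eq_mul_div, div_le_iff₀ (hdenpos x)]
    have h1 : ‖g x‖ ≤ den x := (hgn x).trans (by
      have : (0 : ℝ) < δ := by exact_mod_cast hδ0
      show (f₁ x : ℝ) + f₂ x ≤ (f₁ x : ℝ) + f₂ x + δ
      linarith)
    exact mul_le_mul_of_nonneg_left h1 (f x).coe_nonneg
  have b₁ : ‖L g₁‖₊ ≤ V L f₁ := le_V L f₁ g₁ fun x => by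
    rw [← NNReal.coe_le_coe]; exact bnd f₁ x
  have b₂ : ‖L g₂‖₊ ≤ V L f₂ := le_V L f₂ g₂ fun x => by
    rw [← NNReal.coe_le_coe]; exact bnd f₂ x
  have b₃ : ‖L (g - g₁ - g₂)‖₊ ≤ ε := by
    refine (L.le_opNNNorm _).trans (le_trans ?_ hδ')
    gcongr
    refine nnnorm_le_of_forall fun x => ?_
    rw [← NNReal.coe_le_coe, coe_nnnorm]
    have e : (g - g₁ - g₂) x = ((δ / den x : ℝ) : ℂ) * g x := by
      have hne : (den x : ℂ) ≠ 0 := by exact_mod_cast (hdenpos x).ne'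
      have hd : (den x : ℂ) = (f₁ x : ℝ) + (f₂ x : ℝ) + (δ : ℝ) := by
        simp only [hden]; push_cast; ring
      simp only [hg₁, hg₂, ContinuousMap.coe_sub, Pi.sub_apply, ContinuousMap.coe_mk]
      push_cast
      field_simp
      rw [hd]
      ring
    rw [e, norm_mul, Complex.norm_real, Real.norm_of_nonneg (div_nonneg δ.coe_nonneg
      (hdenpos x).le), div_mul_eq_mul_div, div_le_iff₀ (hdenpos x)]
    refine mul_le_mul_of_nonneg_left ((hgn x).trans ?_) δ.coe_nonneg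
    show (f₁ x : ℝ) + f₂ x ≤ (f₁ x : ℝ) + f₂ x + δ
    linarith [δ.coe_nonneg]
  have e : g = g₁ + g₂ + (g - g₁ - g₂) := by abel
  calc ‖L g‖₊ = ‖L g₁ + L g₂ + L (g - g₁ - g₂)‖₊ := by rw [← map_add, ← map_add, ← e]
    _ ≤ ‖L g₁‖₊ + ‖L g₂‖₊ + ‖L (g - g₁ - g₂)‖₊ :=
        (nnnorm_add_le _ _).trans (add_le_add (nnnorm_add_le _ _) le_rfl)
    _ ≤ V L f₁ + V L f₂ + ε := by gcongr

lemma V_smul (L : C(X, ℂ) →L[ℂ] ℂ) (c : ℝ≥0) (f : C_c(X, ℝ≥0)) :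
    V L (c • f) = c * V L f := by
  rcases eq_or_ne c 0 with rfl | hc
  · rw [zero_mul]
    refine le_antisymm (ciSup_le ?_) zero_le
    rintro ⟨g, hg⟩
    have : g = 0 := by
      ext x
      have := hg x
      simpa using this
    simp [this]
  · refine le_antisymm (ciSup_le ?_) ?_
    · rintro ⟨g, hg⟩
      have hcc : ((c : ℝ) : ℂ) ≠ 0 := by exact_mod_cast hc
      have h := le_V L f (((c : ℝ) : ℂ)⁻¹ • g) (fun x => by
        have h1 := hg x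
        simp only [CompactlySupportedContinuousMap.coe_smul, Pi.smul_apply, smul_eq_mul] at h1
        rw [ContinuousMap.coe_smul, Pi.smul_apply, nnnorm_smul, nnnorm_inv]
        have h2 : ‖((c : ℝ) : ℂ)‖₊ = c := by
          ext; simp
        rw [h2]
        calc c⁻¹ * ‖g x‖₊ ≤ c⁻¹ * (c * f x) := by gcongr
          _ = f x := by rw [← mul_assoc, inv_mul_cancel₀ hc, one_mul])
      rw [map_smul, nnnorm_smul, nnnorm_inv] at h
      have h2 : ‖((c : ℝ) : ℂ)‖₊ = c := by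
        ext; simp
      rw [h2] at h
      calc ‖L g‖₊ = c * (c⁻¹ * ‖L g‖₊) := by rw [← mul_assoc, mul_inv_cancel₀ hc, one_mul]
        _ ≤ c * V L f := by gcongr
    · rw [← le_div_iff₀' (pos_iff_ne_zero.mpr hc)]
      refine ciSup_le ?_
      rintro ⟨g, hg⟩
      rw [le_div_iff₀' (pos_iff_ne_zero.mpr hc)]
      have h := le_V L (c • f) (((c : ℝ) : ℂ) • g) (fun x => by
        rw [ContinuousMap.coe_smul, Pi.smul_apply, nnnorm_smul]
        have h2 : ‖((c : ℝ) : ℂ)‖₊ = c := by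
          ext; simp
        rw [h2]
        simp only [CompactlySupportedContinuousMap.coe_smul, Pi.smul_apply, smul_eq_mul]
        gcongr
        exact hg x)
      rw [map_smul, nnnorm_smul] at h
      have h2 : ‖((c : ℝ) : ℂ)‖₊ = c := by
        ext; simp
      rwa [h2] at h

/-- The total variation functional as a linear map. -/
noncomputable def Vlin (L : C(X, ℂ) →L[ℂ] ℂ) : C_c(X, ℝ≥0) →ₗ[ℝ≥0] ℝ≥0 where
  toFun := V L
  map_add' f₁ f₂ := le_antisymm (V_add_le L f₁ f₂) (V_add_ge L f₁ f₂)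
  map_smul' c f := by rw [V_smul, RingHom.id_apply, smul_eq_mul]

variable [T2Space X] [MeasurableSpace X] [BorelSpace X]

/-- A bounded functional on `C(X, ℂ)` is dominated by a finite positive measure of mass at most
its norm. -/
theorem exists_dominating_measure (L : C(X, ℂ) →L[ℂ] ℂ) :
    ∃ μ : Measure X, μ Set.univ ≤ ‖L‖ₑ ∧ ∀ f : C(X, ℂ), ‖L f‖ₑ ≤ ∫⁻ x, ‖f x‖ₑ ∂μ := by
  refine ⟨NNRealRMK.rieszMeasure (Vlin L), ?_, fun f => ?_⟩
  · set one : C_c(X, ℝ≥0) := ⟨1, HasCompactSupport.of_compactSpace _⟩ with hone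
    have h := NNRealRMK.lintegral_rieszMeasure (Vlin L) one
    have h1 : ∫⁻ x, (one x : ℝ≥0∞) ∂(NNRealRMK.rieszMeasure (Vlin L)) =
        NNRealRMK.rieszMeasure (Vlin L) Set.univ := by
      simp [hone]
    rw [← h1, h]
    have h2 : V L one ≤ ‖L‖₊ * 1 := V_le L one 1 fun x => by simp [hone]
    rw [mul_one] at h2
    exact_mod_cast h2
  · set F : C_c(X, ℝ≥0) := ⟨⟨fun x => ‖f x‖₊, by fun_prop⟩, HasCompactSupport.of_compactSpace _⟩
      with hF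
    have h := NNRealRMK.lintegral_rieszMeasure (Vlin L) F
    have h1 : ∫⁻ x, ‖f x‖ₑ ∂(NNRealRMK.rieszMeasure (Vlin L)) =
        ∫⁻ x, (F x : ℝ≥0∞) ∂(NNRealRMK.rieszMeasure (Vlin L)) := rfl
    rw [h1, h]
    have h2 : ‖L f‖₊ ≤ V L F := le_V L F f fun x => le_rfl
    exact_mod_cast h2

end Variation

end Pool.Agent.Lib.MP_65d7a7_an
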