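import Pool.Agent.Lib.MP_65d7a7_an.Rational
import Pool.Agent.Lib.MP_65d7a7_an.Variation
import Pool.Agent.Lib.MP_65d7a7_an.Potential

/-!
# Points with a bounded point derivation and the Gleason metric
-/

open Metric MeasureTheory
open scoped NNReal ENNReal Real

namespace Pool.Agent.Lib.MP_65d7a7_an

variable {X : Set ℂ} [CompactSpace X]

/-- Quantitative existence of a nonzero bounded point derivation at `x`. -/
def BD (x : X) (M : ℝ) : Prop := ∀ g ∈ ratAlg X, ‖g x‖ ≤ M * ‖sh X x * g‖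

/-- A functional `L` and a measure `μ` which represent the derivation at `x`. -/
structure Rep (x : X) (M : ℝ) (L : C(X, ℂ) →L[ℂ] ℂ) (μ : Measure X) : Prop where
  norm_le : ‖L‖ ≤ M
  eval : ∀ g ∈ ratAlg X, L (sh X x * g) = g x
  mass : μ Set.univ ≤ ENNReal.ofReal M
  dom : ∀ f : C(X, ℂ), ‖L f‖ₑ ≤ ∫⁻ ζ, ‖f ζ‖ₑ ∂μ

lemma exists_functional {x : X} {M : ℝ} (hM : 0 ≤ M) (h : BD x M) :
    ∃ L : C(X, ℂ) →L[ℂ] ℂ, ‖L‖ ≤ M ∧ ∀ g ∈ ratAlg X, L (sh X x * g) = g x := by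
  classical
  set T : ratAlg X →ₗ[ℂ] C(X, ℂ) :=
    (LinearMap.mulLeft ℂ (sh X x)).comp (Subalgebra.toSubmodule (ratAlg X)).subtype with hT
  have hTapp : ∀ u : ratAlg X, T u = sh X x * u.1 := fun u => rfl
  have key : ∀ u : ratAlg X, ‖u.1 x‖ ≤ M * ‖T u‖ := fun u => h u.1 u.2
  have key0 : ∀ u v : ratAlg X, T u = T v → u.1 x = v.1 x := by
    intro u v huv
    have h1 := key (u - v)
    rw [map_sub, huv, sub_self, norm_zero, mul_zero] at h1
    have h2 : (u - v).1 x = u.1 x - v.1 x := rfl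
    rw [h2] at h1
    exact sub_eq_zero.mp (norm_le_zero_iff.mp h1)
  set W : Submodule ℂ C(X, ℂ) := LinearMap.range T with hW
  have hch : ∀ w : W, ∃ u : ratAlg X, T u = w.1 := fun w => LinearMap.mem_range.mp w.2
  choose s hs using hch
  set e : W →ₗ[ℂ] ℂ :=
    { toFun := fun w => (s w).1 x
      map_add' := fun w₁ w₂ => by
        have : T (s (w₁ + w₂)) = T (s w₁ + s w₂) := by
          rw [hs, map_add, hs, hs]; rfl
        exact key0 _ _ this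
      map_smul' := fun c w => by
        have : T (s (c • w)) = T (c • s w) := by
          rw [hs, map_smul, hs]; rfl
        exact key0 _ _ this } with he
  have hbound : ∀ w : W, ‖e w‖ ≤ M * ‖w‖ := fun w => by
    have h1 := key (s w)
    rw [hs] at h1
    exact h1
  obtain ⟨L, hL1, hL2⟩ := exists_extension_norm_eq W (e.mkContinuous M hbound)
  refine ⟨L, ?_, fun g hg => ?_⟩
  · rw [hL2]
    exact LinearMap.mkContinuous_norm_le _ hM _
  · have hmem : sh X x * g ∈ W := ⟨⟨g, hg⟩, rfl⟩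
    have h1 := hL1 ⟨sh X x * g, hmem⟩
    rw [LinearMap.mkContinuous_apply] at h1
    refine h1.trans ?_
    have : T (s ⟨sh X x * g, hmem⟩) = T ⟨g, hg⟩ := by rw [hs]; rfl
    exact key0 _ _ this

lemma exists_rep {x : X} {M : ℝ} (hM : 0 ≤ M) (h : BD x M) :
    ∃ (L : C(X, ℂ) →L[ℂ] ℂ) (μ : Measure X), Rep x M L μ := by
  obtain ⟨L, hL, hev⟩ := exists_functional hM h
  obtain ⟨μ, hμ, hdom⟩ := exists_dominating_measure L
  refine ⟨L, μ, ⟨hL, hev, hμ.trans ?_, hdom⟩⟩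
  rw [← ofReal_norm]
  exact ENNReal.ofReal_le_ofReal hL

/-- Bounding the functional by the potential. -/
lemma Rep.norm_apply_le {x : X} {M : ℝ} {L : C(X, ℂ) →L[ℂ] ℂ} {μ : Measure X} (hr : Rep x M L μ)
    {w : ℂ} {I : ℝ} (hI : 0 ≤ I) (hpot : ∫⁻ ζ : X, ‖(ζ : ℂ) - w‖ₑ⁻¹ ∂μ ≤ ENNReal.ofReal I)
    {G : C(X, ℂ)} {B : ℝ} (hB : 0 < B) (hG : ∀ ζ : X, ‖G ζ‖ * ‖(ζ : ℂ) - w‖ ≤ B) :
    ‖L G‖ ≤ B * I := by
  have h1 : ‖L G‖ₑ ≤ ENNReal.ofReal (B * I) := by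
    calc ‖L G‖ₑ ≤ ∫⁻ ζ, ‖G ζ‖ₑ ∂μ := hr.dom G
      _ ≤ ∫⁻ ζ : X, ENNReal.ofReal B * ‖(ζ : ℂ) - w‖ₑ⁻¹ ∂μ := by
          refine lintegral_mono fun ζ => ?_
          by_cases hz : (ζ : ℂ) - w = 0
          · show _ ≤ ENNReal.ofReal B * ‖(ζ : ℂ) - w‖ₑ⁻¹
            rw [hz, enorm_zero, ENNReal.inv_zero, ENNReal.mul_top (by simpa using hB)]
            exact le_top
          · show ‖G ζ‖ₑ ≤ ENNReal.ofReal B * ‖(ζ : ℂ) - w‖ₑ⁻¹
            rw [← div_eq_mul_inv, ENNReal.le_div_iff_mul_le (Or.inl (by simpa using hz))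
              (Or.inl enorm_ne_top), ← ofReal_norm, ← ofReal_norm,
              ← ENNReal.ofReal_mul (norm_nonneg _)]
            exact ENNReal.ofReal_le_ofReal (hG ζ)
      _ = ENNReal.ofReal B * ∫⁻ ζ : X, ‖(ζ : ℂ) - w‖ₑ⁻¹ ∂μ :=
          lintegral_const_mul' _ _ ENNReal.ofReal_ne_top
      _ ≤ ENNReal.ofReal B * ENNReal.ofReal I := by gcongr
      _ = ENNReal.ofReal (B * I) := (ENNReal.ofReal_mul hB.le).symm
  rw [← ofReal_norm] at h1
  exact (ENNReal.ofReal_le_ofReal_iff (by positivity)).mp h1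

lemma sh_mul_eq {w : ℂ} {x : X} (G : C(X, ℂ)) :
    sh X x * G = sh X w * G + (w - (x : ℂ)) • G := by
  ext ζ
  simp only [ContinuousMap.coe_mul, Pi.mul_apply, sh_apply, ContinuousMap.coe_add, Pi.add_apply,
    ContinuousMap.coe_smul, Pi.smul_apply, smul_eq_mul]
  ring

lemma Rep.inside {x : X} {M : ℝ} {L : C(X, ℂ) →L[ℂ] ℂ} {μ : Measure X} (hr : Rep x M L μ)
    (z : X) {I : ℝ} (hI : 0 ≤ I)
    (hpot : ∫⁻ ζ : X, ‖(ζ : ℂ) - z‖ₑ⁻¹ ∂μ ≤ ENNReal.ofReal I)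
    {g : C(X, ℂ)} (hg : g ∈ ratAlg X) :
    ‖g z - g x‖ ≤ 2 * ‖g‖ * (M * ‖(z : ℂ) - x‖ + ‖(z : ℂ) - x‖ ^ 2 * I) := by
  have hM : 0 ≤ M := (norm_nonneg _).trans hr.norm_le
  rcases (norm_nonneg g).eq_or_lt with h0 | hpos
  · have : g = 0 := norm_eq_zero.mp h0.symm
    simp [this]
  obtain ⟨G, hG, hGe⟩ := exists_divided hg z
  have e1 : g z - g x = ((z : ℂ) - x) * G x := by
    have := hGe x
    linear_combination -this
  have e2 : G x = L (g - ContinuousMap.const X (g z)) + ((z : ℂ) - x) * L G := by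
    rw [← hr.eval G hG, sh_mul_eq (w := (z : ℂ)) G, map_add, map_smul, smul_eq_mul]
    congr 2
    ext ζ
    simp only [ContinuousMap.coe_mul, Pi.mul_apply, sh_apply, ContinuousMap.coe_sub,
      Pi.sub_apply, ContinuousMap.const_apply]
    exact (hGe ζ).symm
  have b1 : ‖L (g - ContinuousMap.const X (g z))‖ ≤ M * (2 * ‖g‖) := by
    refine (L.le_opNorm _).trans ?_
    have hh : ‖g - ContinuousMap.const X (g z)‖ ≤ 2 * ‖g‖ := by
      rw [ContinuousMap.norm_le _ (by positivity)]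
      intro ζ
      simp only [ContinuousMap.coe_sub, Pi.sub_apply, ContinuousMap.const_apply]
      calc ‖g ζ - g z‖ ≤ ‖g ζ‖ + ‖g z‖ := norm_sub_le _ _
        _ ≤ ‖g‖ + ‖g‖ := add_le_add (g.norm_coe_le_norm ζ) (g.norm_coe_le_norm z)
        _ = 2 * ‖g‖ := by ring
    exact mul_le_mul hr.norm_le hh (norm_nonneg _) hM
  have b2 : ‖L G‖ ≤ 2 * ‖g‖ * I := by
    refine hr.norm_apply_le hI hpot (by positivity) fun ζ => ?_
    rw [mul_comm, ← norm_mul, ← hGe ζ]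
    calc ‖g ζ - g z‖ ≤ ‖g ζ‖ + ‖g z‖ := norm_sub_le _ _
      _ ≤ ‖g‖ + ‖g‖ := add_le_add (g.norm_coe_le_norm ζ) (g.norm_coe_le_norm z)
      _ = 2 * ‖g‖ := by ring
  rw [e1, e2, norm_mul]
  calc ‖(z : ℂ) - x‖ * ‖L (g - ContinuousMap.const X (g z)) + ((z : ℂ) - x) * L G‖
      ≤ ‖(z : ℂ) - x‖ * (M * (2 * ‖g‖) + ‖(z : ℂ) - x‖ * (2 * ‖g‖ * I)) := by
        gcongr
        refine (norm_add_le _ _).trans (add_le_add b1 ?_)
        rw [norm_mul]
        gcongr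
    _ = _ := by ring

lemma Rep.outside {x : X} {M : ℝ} {L : C(X, ℂ) →L[ℂ] ℂ} {μ : Measure X} (hr : Rep x M L μ)
    {w : ℂ} (hw : w ∉ X) {I : ℝ} (hI : 0 ≤ I)
    (hpot : ∫⁻ ζ : X, ‖(ζ : ℂ) - w‖ₑ⁻¹ ∂μ ≤ ENNReal.ofReal I) :
    1 ≤ M * ‖w - x‖ + ‖w - x‖ ^ 2 * I := by
  have hxw : (x : ℂ) - w ≠ 0 := fun h => hw (sub_eq_zero.mp h ▸ x.2)
  have hwx : w - (x : ℂ) ≠ 0 := fun h => hxw (by linear_combination -h)
  have hne : ∀ ζ : X, (ζ : ℂ) - w ≠ 0 := fun ζ h => hw (sub_eq_zero.mp h ▸ ζ.2)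
  have e2 : ((x : ℂ) - w)⁻¹ = L 1 + (w - x) * L (inv X w hw) := by
    have h1 := hr.eval _ (inv_mem X w hw)
    rw [inv_apply] at h1
    rw [← h1, sh_mul_eq (w := w), map_add, map_smul, smul_eq_mul]
    congr 2
    ext ζ
    simp [hne ζ]
  have b1 : ‖L 1‖ ≤ M := by
    refine (L.le_opNorm _).trans ?_
    have hh : ‖(1 : C(X, ℂ))‖ ≤ 1 := by
      rw [ContinuousMap.norm_le _ zero_le_one]
      intro ζ; simp
    calc ‖L‖ * ‖(1 : C(X, ℂ))‖ ≤ M * 1 :=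
          mul_le_mul hr.norm_le hh (norm_nonneg _) ((norm_nonneg _).trans hr.norm_le)
      _ = M := mul_one M
  have b2 : ‖L (inv X w hw)‖ ≤ 1 * I := by
    refine hr.norm_apply_le hI hpot one_pos fun ζ => ?_
    rw [inv_apply, norm_inv, inv_mul_cancel₀ (norm_ne_zero_iff.mpr (hne ζ))]
  have b3 : ‖w - (x : ℂ)‖⁻¹ ≤ M + ‖w - x‖ * I := by
    have h2 : ‖w - (x : ℂ)‖⁻¹ = ‖((x : ℂ) - w)⁻¹‖ := by rw [norm_inv, norm_sub_rev]
    rw [h2, e2]
    refine (norm_add_le _ _).trans (add_le_add b1 ?_)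
    rw [norm_mul]
    rw [one_mul] at b2
    gcongr
  have hpos : 0 < ‖w - (x : ℂ)‖ := norm_pos_iff.mpr hwx
  calc (1 : ℝ) = ‖w - (x : ℂ)‖ * ‖w - (x : ℂ)‖⁻¹ := (mul_inv_cancel₀ hpos.ne').symm
    _ ≤ ‖w - (x : ℂ)‖ * (M + ‖w - x‖ * I) := by gcongr
    _ = _ := by ring

/-- Two points with derivations bounded by `M` are close in the Gleason metric. -/
lemma lipschitz {x y : X} {M : ℝ} (hM : 0 ≤ M) (hx : BD x M) (hy : BD y M) (hxy : x ≠ y)
    (hsmall : 7 * M * ‖(x : ℂ) - y‖ < 1) {g : C(X, ℂ)} (hg : g ∈ ratAlg X) :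
    ‖g x - g y‖ ≤ 66 * M * ‖(x : ℂ) - y‖ * ‖g‖ := by
  obtain ⟨L, μ, hr⟩ := exists_rep hM hx
  obtain ⟨L', μ', hr'⟩ := exists_rep hM hy
  set d : ℝ := ‖(x : ℂ) - y‖ with hd
  have hdpos : 0 < d := norm_pos_iff.mpr (sub_ne_zero.mpr fun h => hxy (Subtype.ext h))
  haveI : IsFiniteMeasure μ := ⟨hr.mass.trans_lt ENNReal.ofReal_lt_top⟩
  haveI : IsFiniteMeasure μ' := ⟨hr'.mass.trans_lt ENNReal.ofReal_lt_top⟩
  obtain ⟨z, hz, hpot⟩ := exists_small_potential (μ + μ') (fun ζ : X => (ζ : ℂ))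
    measurable_subtype_coe (x : ℂ) hdpos
  have hmass : (μ + μ') Set.univ ≤ ENNReal.ofReal (2 * M) := by
    rw [Measure.add_apply, two_mul, ENNReal.ofReal_add hM hM]
    exact add_le_add hr.mass hr'.mass
  have hbd : ∫⁻ ζ : X, ‖(ζ : ℂ) - z‖ₑ⁻¹ ∂(μ + μ') ≤ ENNReal.ofReal (6 * M / d) := by
    refine hpot.trans ?_
    calc ENNReal.ofReal (3 / d) * (μ + μ') Set.univ
        ≤ ENNReal.ofReal (3 / d) * ENNReal.ofReal (2 * M) := by gcongr
      _ = ENNReal.ofReal (6 * M / d) := by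
          rw [← ENNReal.ofReal_mul (by positivity)]
          congr 1
          ring
  rw [lintegral_add_measure] at hbd
  have hp1 := le_trans le_self_add hbd
  have hp2 := le_trans le_add_self hbd
  have hI : 0 ≤ 6 * M / d := by positivity
  have hzx : ‖z - x‖ < d := by
    rw [mem_ball, dist_eq_norm] at hz
    exact hz
  have hzy : ‖z - y‖ ≤ 2 * d := by
    calc ‖z - (y : ℂ)‖ = ‖(z - x) + ((x : ℂ) - y)‖ := by congr 1; ring
      _ ≤ ‖z - x‖ + ‖(x : ℂ) - y‖ := norm_add_le _ _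
      _ ≤ d + d := add_le_add hzx.le le_rfl
      _ = 2 * d := by ring
  have hκ : M * ‖z - x‖ + ‖z - x‖ ^ 2 * (6 * M / d) ≤ 7 * M * d := by
    calc M * ‖z - x‖ + ‖z - x‖ ^ 2 * (6 * M / d) ≤ M * d + d ^ 2 * (6 * M / d) := by gcongr
      _ = 7 * M * d := by field_simp; ring
  have hκ' : M * ‖z - y‖ + ‖z - y‖ ^ 2 * (6 * M / d) ≤ 26 * M * d := by
    calc M * ‖z - y‖ + ‖z - y‖ ^ 2 * (6 * M / d)
        ≤ M * (2 * d) + (2 * d) ^ 2 * (6 * M / d) := by gcongr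
      _ = 26 * M * d := by field_simp; ring
  have hzX : z ∈ X := by
    by_contra hzX
    have := hr.outside hzX hI hp1
    linarith
  have h1 := hr.inside ⟨z, hzX⟩ hI hp1 hg
  have h2 := hr'.inside ⟨z, hzX⟩ hI hp2 hg
  calc ‖g x - g y‖ = ‖(g ⟨z, hzX⟩ - g y) - (g ⟨z, hzX⟩ - g x)‖ := by congr 1; ring
    _ ≤ ‖g ⟨z, hzX⟩ - g y‖ + ‖g ⟨z, hzX⟩ - g x‖ := norm_sub_le _ _
    _ ≤ 2 * ‖g‖ * (26 * M * d) + 2 * ‖g‖ * (7 * M * d) := by
        refine add_le_add (h2.trans ?_) (h1.trans ?_)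
        · gcongr
        · gcongr
    _ = 66 * M * d * ‖g‖ := by ring

/-- Near a point `v` with a bounded point derivation there are, in each tangent disc, points close
to `v` in the Gleason metric. -/
lemma exists_near {v : X} {M : ℝ} (hM : 0 ≤ M) (hv : BD v M) {z₀ : ℂ} (hz₀ : z₀ ≠ v) {η : ℝ}
    (hη : 0 < η) :
    ∃ z : X, dist (z : ℂ) z₀ < dist (v : ℂ) z₀ ∧ ∀ g ∈ ratAlg X, ‖g z - g v‖ ≤ η * ‖g‖ := by
  obtain ⟨L, μ, hr⟩ := exists_rep hM hv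
  haveI : IsFiniteMeasure μ := ⟨hr.mass.trans_lt ENNReal.ofReal_lt_top⟩
  set t : ℝ := ‖z₀ - v‖ with ht
  have htpos : 0 < t := norm_pos_iff.mpr (sub_ne_zero.mpr hz₀)
  -- the small radius
  obtain ⟨r, hr0, hrt, hr1, hr2⟩ : ∃ r : ℝ, 0 < r ∧ r ≤ t ∧ 14 * M * r < 1 ∧ 28 * M * r ≤ η := by
    refine ⟨min t (min (1 / (28 * (M + 1))) (η / (28 * (M + 1)))), by positivity,
      min_le_left _ _, ?_, ?_⟩
    · have h1 : min t (min (1 / (28 * (M + 1))) (η / (28 * (M + 1)))) ≤ 1 / (28 * (M + 1)) :=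
        (min_le_right _ _).trans (min_le_left _ _)
      calc 14 * M * min t (min (1 / (28 * (M + 1))) (η / (28 * (M + 1))))
          ≤ 14 * M * (1 / (28 * (M + 1))) := by gcongr
        _ < 1 := by
          rw [mul_one_div, div_lt_one (by positivity)]
          nlinarith
    · have h1 : min t (min (1 / (28 * (M + 1))) (η / (28 * (M + 1)))) ≤ η / (28 * (M + 1)) :=
        (min_le_right _ _).trans (min_le_right _ _)
      calc 28 * M * min t (min (1 / (28 * (M + 1))) (η / (28 * (M + 1))))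
          ≤ 28 * M * (η / (28 * (M + 1))) := by gcongr
        _ ≤ η := by
          rw [mul_div_assoc', div_le_iff₀ (by positivity)]
          nlinarith
  set w : ℂ := v + ((r / t : ℝ) : ℂ) * (z₀ - v) with hw
  have hwv : ‖w - v‖ = r := by
    rw [hw, add_sub_cancel_left, norm_mul, Complex.norm_real, Real.norm_of_nonneg (by positivity),
      ← ht]
    field_simp
  have hwz : ‖w - z₀‖ = t - r := by
    have : w - z₀ = ((1 - r / t : ℝ) : ℂ) * ((v : ℂ) - z₀) := by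
      rw [hw]; push_cast; ring
    rw [this, norm_mul, Complex.norm_real, Real.norm_of_nonneg, norm_sub_rev, ← ht]
    · field_simp
    · rw [sub_nonneg, div_le_one htpos]
      exact hrt
  obtain ⟨z, hz, hpot⟩ := exists_small_potential μ (fun ζ : X => (ζ : ℂ))
    measurable_subtype_coe w hr0
  rw [mem_ball, dist_eq_norm] at hz
  have hbd : ∫⁻ ζ : X, ‖(ζ : ℂ) - z‖ₑ⁻¹ ∂μ ≤ ENNReal.ofReal (3 * M / r) := by
    refine hpot.trans ?_
    calc ENNReal.ofReal (3 / r) * μ Set.univ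
        ≤ ENNReal.ofReal (3 / r) * ENNReal.ofReal M := by gcongr; exact hr.mass
      _ = ENNReal.ofReal (3 * M / r) := by
          rw [← ENNReal.ofReal_mul (by positivity)]
          congr 1
          ring
  have hI : 0 ≤ 3 * M / r := by positivity
  have hzv : ‖z - v‖ ≤ 2 * r := by
    calc ‖z - (v : ℂ)‖ = ‖(z - w) + (w - v)‖ := by congr 1; ring
      _ ≤ ‖z - w‖ + ‖w - v‖ := norm_add_le _ _
      _ ≤ r + r := add_le_add hz.le hwv.le
      _ = 2 * r := by ring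
  have hκ : M * ‖z - v‖ + ‖z - v‖ ^ 2 * (3 * M / r) ≤ 14 * M * r := by
    calc M * ‖z - v‖ + ‖z - v‖ ^ 2 * (3 * M / r)
        ≤ M * (2 * r) + (2 * r) ^ 2 * (3 * M / r) := by gcongr
      _ = 14 * M * r := by field_simp; ring
  have hzX : z ∈ X := by
    by_contra hzX
    have := hr.outside hzX hI hbd
    linarith
  refine ⟨⟨z, hzX⟩, ?_, fun g hg => ?_⟩
  · show dist z z₀ < dist (v : ℂ) z₀
    rw [dist_eq_norm, dist_eq_norm, norm_sub_rev (v : ℂ), ← ht]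
    calc ‖z - z₀‖ = ‖(z - w) + (w - z₀)‖ := by congr 1; ring
      _ ≤ ‖z - w‖ + ‖w - z₀‖ := norm_add_le _ _
      _ < r + (t - r) := add_lt_add_of_lt_of_le hz hwz.le
      _ = t := by ring
  · have h1 := hr.inside ⟨z, hzX⟩ hI hbd hg
    calc ‖g ⟨z, hzX⟩ - g v‖ ≤ 2 * ‖g‖ * (14 * M * r) := by
          refine h1.trans ?_
          gcongr
      _ = 28 * M * r * ‖g‖ := by ring
      _ ≤ η * ‖g‖ := by gcongr

/-- The derivations cannot be uniformly bounded on a Gleason ball if `X` has empty interior. -/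
theorem not_uniform (hint : interior X = ∅) {x₀ : X} {M ε : ℝ} (hM : 0 ≤ M) (hε : 0 < ε)
    (h : ∀ z : X, (∀ g ∈ ratAlg X, ‖g z - g x₀‖ ≤ ε * ‖g‖) → BD z M) : False := by
  set U : Set X := {z | ∀ g ∈ ratAlg X, ‖g z - g x₀‖ ≤ ε * ‖g‖} with hU
  have hUc : IsClosed U := by
    have : U = ⋂ g ∈ ratAlg X, {z : X | ‖g z - g x₀‖ ≤ ε * ‖g‖} := by
      ext z; simp [hU]
    rw [this]
    refine isClosed_biInter fun g _ => ?_
    exact isClosed_le (by fun_prop) continuous_const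
  have hx₀ : x₀ ∈ U := fun g _ => by
    rw [sub_self, norm_zero]; positivity
  have hx₀M : BD x₀ M := h x₀ hx₀
  -- choice of the radius
  obtain ⟨δ, hδ0, hδ1, hδ2⟩ : ∃ δ : ℝ, 0 < δ ∧ 14 * M * δ < 1 ∧ 132 * M * δ ≤ ε / 2 := by
    refine ⟨min (1 / (28 * (M + 1))) (ε / (264 * (M + 1))), by positivity, ?_, ?_⟩
    · calc 14 * M * min (1 / (28 * (M + 1))) (ε / (264 * (M + 1)))
          ≤ 14 * M * (1 / (28 * (M + 1))) := by gcongr; exact min_le_left _ _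
        _ < 1 := by
          rw [mul_one_div, div_lt_one (by positivity)]
          nlinarith
    · calc 132 * M * min (1 / (28 * (M + 1))) (ε / (264 * (M + 1)))
          ≤ 132 * M * (ε / (264 * (M + 1))) := by gcongr; exact min_le_right _ _
        _ ≤ ε / 2 := by
          rw [mul_div_assoc', div_le_iff₀ (by positivity)]
          nlinarith
  -- a hole near `x₀`
  obtain ⟨z₀, hz₀, hz₀X⟩ : ∃ z₀ ∈ ball (x₀ : ℂ) δ, z₀ ∉ X := by
    by_contra hcon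
    push Not at hcon
    have hsub : ball (x₀ : ℂ) δ ⊆ interior X := interior_maximal hcon isOpen_ball
    rw [hint] at hsub
    exact hsub (mem_ball_self hδ0)
  -- the nearest point of `U`
  obtain ⟨v, hvU, hv⟩ := hUc.isCompact.exists_isMinOn ⟨x₀, hx₀⟩
    (f := fun z : X => dist (z : ℂ) z₀) (by fun_prop)
  have hv' : ∀ z ∈ U, dist (v : ℂ) z₀ ≤ dist (z : ℂ) z₀ := fun z hz => hv hz
  have hvz : dist (v : ℂ) z₀ < δ := by
    refine (hv' x₀ hx₀).trans_lt ?_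
    rw [dist_comm]
    exact hz₀
  have hvx : ‖(v : ℂ) - x₀‖ < 2 * δ := by
    rw [← dist_eq_norm]
    calc dist (v : ℂ) x₀ ≤ dist (v : ℂ) z₀ + dist z₀ (x₀ : ℂ) := dist_triangle _ _ _
      _ < δ + δ := add_lt_add hvz hz₀
      _ = 2 * δ := by ring
  have hvg : ∀ g ∈ ratAlg X, ‖g v - g x₀‖ ≤ ε / 2 * ‖g‖ := by
    intro g hg
    by_cases hne : v = x₀
    · rw [hne, sub_self, norm_zero]; positivity
    · have h1 := lipschitz hM (h v hvU) hx₀M hne (by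
        calc 7 * M * ‖(v : ℂ) - x₀‖ ≤ 7 * M * (2 * δ) := by gcongr
          _ = 14 * M * δ := by ring
          _ < 1 := hδ1) hg
      refine h1.trans ?_
      gcongr
      calc 66 * M * ‖(v : ℂ) - x₀‖ ≤ 66 * M * (2 * δ) := by gcongr
        _ = 132 * M * δ := by ring
        _ ≤ ε / 2 := hδ2
  obtain ⟨z, hz1, hz2⟩ := exists_near hM (h v hvU) (z₀ := z₀) (fun e => hz₀X (e ▸ v.2))
    (half_pos hε)
  have hzU : z ∈ U := fun g hg => by
    calc ‖g z - g x₀‖ = ‖(g z - g v) + (g v - g x₀)‖ := by congr 1; ring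
      _ ≤ ‖g z - g v‖ + ‖g v - g x₀‖ := norm_add_le _ _
      _ ≤ ε / 2 * ‖g‖ + ε / 2 * ‖g‖ := add_le_add (hz2 g hg) (hvg g hg)
      _ = ε * ‖g‖ := by ring
  exact absurd (hv' z hzU) (not_le.mpr hz1)

end Pool.Agent.Lib.MP_65d7a7_an
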