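import Pool.Agent.Lib.MP_65d7a7_an.Defs

/-!
# Divided differences of rational functions
-/

open Metric

namespace Pool.Agent.Lib.MP_65d7a7_an

/-- The coordinate function. -/
def coord (X : Set ℂ) : C(X, ℂ) := ⟨Subtype.val, continuous_subtype_val⟩

@[simp] lemma coord_apply {X : Set ℂ} (z : X) : coord X z = z := rfl

/-- The function `ζ - w`. -/
def sh (X : Set ℂ) (w : ℂ) : C(X, ℂ) := ⟨fun ζ => (ζ : ℂ) - w, by fun_prop⟩

@[simp] lemma sh_apply {X : Set ℂ} (w : ℂ) (z : X) : sh X w z = z - w := rfl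

lemma coord_mem (X : Set ℂ) : coord X ∈ ratAlg X :=
  ⟨Polynomial.X, 1, fun z _ => by simp, fun z => by simp⟩

lemma sh_mem (X : Set ℂ) (w : ℂ) : sh X w ∈ ratAlg X :=
  ⟨Polynomial.X - Polynomial.C w, 1, fun z _ => by simp, fun z => by simp⟩

lemma const_mem (X : Set ℂ) (w : ℂ) : ContinuousMap.const X w ∈ ratAlg X :=
  ⟨Polynomial.C w, 1, fun z _ => by simp, fun z => by simp⟩

/-- The function `1/(ζ - w)` for `w ∉ X`. -/
noncomputable def inv (X : Set ℂ) (w : ℂ) (hw : w ∉ X) : C(X, ℂ) :=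
  ⟨fun ζ => ((ζ : ℂ) - w)⁻¹, by
    refine Continuous.inv₀ (by fun_prop) fun ζ h => ?_
    exact hw (sub_eq_zero.mp h ▸ ζ.2)⟩

@[simp] lemma inv_apply {X : Set ℂ} (w : ℂ) (hw : w ∉ X) (z : X) :
    inv X w hw z = ((z : ℂ) - w)⁻¹ := rfl

lemma inv_mem (X : Set ℂ) (w : ℂ) (hw : w ∉ X) : inv X w hw ∈ ratAlg X :=
  ⟨1, Polynomial.X - Polynomial.C w, fun z hz => by
    simp only [Polynomial.eval_sub, Polynomial.eval_X, Polynomial.eval_C]
    exact fun h => hw (sub_eq_zero.mp h ▸ hz), fun z => by simp⟩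

/-- Divided differences of rational functions are rational. -/
lemma exists_divided {X : Set ℂ} {g : C(X, ℂ)} (hg : g ∈ ratAlg X) (z : X) :
    ∃ G ∈ ratAlg X, ∀ ζ : X, g ζ - g z = ((ζ : ℂ) - z) * G ζ := by
  obtain ⟨P, Q, hQ, hg⟩ := hg
  set A : Polynomial ℂ := Polynomial.C (Q.eval (z : ℂ)) * P - Polynomial.C (P.eval (z : ℂ)) * Q
    with hA
  have hroot : A.IsRoot (z : ℂ) := by
    rw [Polynomial.IsRoot.def, hA]
    simp
    ring
  obtain ⟨B, hB⟩ := Polynomial.dvd_iff_isRoot.mpr hroot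
  have hQz : Q.eval (z : ℂ) ≠ 0 := hQ z z.2
  have hden : ∀ w ∈ X, (Q * Polynomial.C (Q.eval (z : ℂ))).eval w ≠ 0 := fun w hw => by
    rw [Polynomial.eval_mul, Polynomial.eval_C]
    exact mul_ne_zero (hQ w hw) hQz
  refine ⟨⟨fun ζ => B.eval (ζ : ℂ) / (Q * Polynomial.C (Q.eval (z : ℂ))).eval (ζ : ℂ), ?_⟩,
    ⟨B, Q * Polynomial.C (Q.eval (z : ℂ)), hden, fun ζ => rfl⟩, fun ζ => ?_⟩
  · refine Continuous.div ?_ ?_ fun ζ => hden ζ ζ.2
    · exact B.continuous.comp continuous_subtype_val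
    · exact (Polynomial.continuous _).comp continuous_subtype_val
  · have h1 : A.eval (ζ : ℂ) = ((ζ : ℂ) - z) * B.eval (ζ : ℂ) := by
      rw [hB]; simp
    have h2 : A.eval (ζ : ℂ) = Q.eval (z : ℂ) * P.eval (ζ : ℂ) - P.eval (z : ℂ) * Q.eval (ζ : ℂ) := by
      rw [hA]; simp
    have hQζ : Q.eval (ζ : ℂ) ≠ 0 := hQ ζ ζ.2
    rw [hg, hg, ContinuousMap.coe_mk, Polynomial.eval_mul, Polynomial.eval_C, mul_div_assoc',
      ← h1, h2]
    field_simp

end Pool.Agent.Lib.MP_65d7a7_an
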